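import Pool.Agent.H51.DG.NG
import Pool.Agent.H51.DG.KI

/-!
# Project DA (class (A)), static job S3: the kernel `k2` of degree 2 (note 1995 of helper53, section 2)

`k2 (Y,Z) = YZ + Y² log|1 - Z/Y| + Z² log|1 - Y/Z|`, `k2 (e^{-r},e^{-s}) = e^{-(r+s)} n2 |r-s|`,
`n2'' = n2 - 2 w2`, `w2 = 1/(4 sinh²(τ/2))`; `form b b k2 = -∬ |dA_1|² w2 - 2 ∫ A_1² ≤ 0`.
-/

set_option autoImplicit false
open Real Set MeasureTheory Filter Topology

namespace Pool.Agent.H44.DA
open Pool.Agent.H51.DG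

noncomputable def k2 (Y Z : ℝ) : ℝ :=
  Y * Z + Y ^ 2 * Real.log (1 - Z / Y) + Z ^ 2 * Real.log (1 - Y / Z)

/-- for `τ > 0` -/
noncomputable def n2 (τ : ℝ) : ℝ :=
  1 + Real.exp τ * Real.log (1 - Real.exp (-τ)) + Real.exp (-τ) * Real.log (Real.exp τ - 1)

noncomputable def cth (τ : ℝ) : ℝ := Real.cosh (τ / 2) / Real.sinh (τ / 2)

noncomputable def n2d (τ : ℝ) : ℝ :=
  Real.exp τ * (Real.log (Real.exp τ - 1) - τ) - Real.exp (-τ) * Real.log (Real.exp τ - 1) + cth τ

noncomputable def w2 (τ : ℝ) : ℝ := 1 / (4 * Real.sinh (τ / 2) ^ 2)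

theorem n2_eq {τ : ℝ} (h : 0 < τ) :
    n2 τ = 1 + Real.exp τ * (Real.log (Real.exp τ - 1) - τ)
      + Real.exp (-τ) * Real.log (Real.exp τ - 1) := by
  have h1 : 0 < Real.exp τ - 1 := by
    have := Real.add_one_lt_exp h.ne'
    linarith
  have h2 : 1 - Real.exp (-τ) = (Real.exp τ - 1) * Real.exp (-τ) := by
    rw [sub_mul, ← Real.exp_add, add_neg_cancel, Real.exp_zero, one_mul]
  unfold n2
  rw [h2, Real.log_mul h1.ne' (Real.exp_pos _).ne', Real.log_exp]
  ring

/-- `coth` in terms of `e^τ` -/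
theorem cth_eq {τ : ℝ} (h : 0 < τ) : cth τ = (Real.exp τ + 1) / (Real.exp τ - 1) := by
  have h1 : 0 < Real.exp τ - 1 := by
    have := Real.add_one_lt_exp h.ne'
    linarith
  have hs : 0 < Real.sinh (τ / 2) := Real.sinh_pos_iff.mpr (by linarith)
  have e2 : Real.exp τ = Real.exp (τ / 2) ^ 2 := by
    rw [← Real.exp_nat_mul]
    congr 1
    push_cast
    ring
  have e3 : Real.exp (-(τ / 2)) = (Real.exp (τ / 2))⁻¹ := Real.exp_neg _
  have hEp : 0 < Real.exp (τ / 2) := Real.exp_pos _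
  unfold cth
  rw [div_eq_div_iff hs.ne' h1.ne', Real.cosh_eq, Real.sinh_eq, e3, e2]
  field_simp

theorem n2_d1 {τ : ℝ} (h : 0 < τ) : HasDerivAt n2 (n2d τ) τ := by
  have h1 : 0 < Real.exp τ - 1 := by
    have := Real.add_one_lt_exp h.ne'
    linarith
  have hL : HasDerivAt (fun t => Real.log (Real.exp t - 1)) (Real.exp τ / (Real.exp τ - 1)) τ :=
    ((Real.hasDerivAt_exp τ).sub_const 1).log h1.ne'
  have hE : HasDerivAt (fun t : ℝ => Real.exp t) (Real.exp τ) τ := Real.hasDerivAt_exp τ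
  have hE' : HasDerivAt (fun t : ℝ => Real.exp (-t)) (Real.exp (-τ) * (-1)) τ :=
    ((hasDerivAt_id τ).neg).exp
  have hf : HasDerivAt (fun t => 1 + Real.exp t * (Real.log (Real.exp t - 1) - t)
      + Real.exp (-t) * Real.log (Real.exp t - 1))
      (Real.exp τ * (Real.log (Real.exp τ - 1) - τ)
        + Real.exp τ * (Real.exp τ / (Real.exp τ - 1) - 1)
        + (Real.exp (-τ) * (-1) * Real.log (Real.exp τ - 1)
        + Real.exp (-τ) * (Real.exp τ / (Real.exp τ - 1)))) τ :=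
    ((hE.mul (hL.sub (hasDerivAt_id τ))).const_add 1).add (hE'.mul hL)
  have hev : (fun t => 1 + Real.exp t * (Real.log (Real.exp t - 1) - t)
      + Real.exp (-t) * Real.log (Real.exp t - 1)) =ᶠ[𝓝 τ] n2 := by
    filter_upwards [lt_mem_nhds h] with t ht
    exact (n2_eq ht).symm
  have hg := hf.congr_of_eventuallyEq hev.symm
  refine hg.congr_deriv ?_
  unfold n2d
  rw [cth_eq h, Real.exp_neg]
  have hp := Real.exp_pos τ
  set E := Real.exp τ with hEd
  have h2 : E - 1 ≠ 0 := h1.ne'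
  field_simp
  ring

theorem cth_d {τ : ℝ} (h : 0 < τ) : HasDerivAt cth (-(2 * w2 τ)) τ := by
  have hs : 0 < Real.sinh (τ / 2) := Real.sinh_pos_iff.mpr (by linarith)
  have h1 : HasDerivAt (fun t : ℝ => Real.cosh (t / 2)) (Real.sinh (τ / 2) * (1 / 2)) τ :=
    ((hasDerivAt_id τ).div_const 2).cosh
  have h2 : HasDerivAt (fun t : ℝ => Real.sinh (t / 2)) (Real.cosh (τ / 2) * (1 / 2)) τ :=
    ((hasDerivAt_id τ).div_const 2).sinh
  refine (h1.div h2 hs.ne').congr_deriv ?_
  have h3 := Real.cosh_sq (τ / 2)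
  unfold w2
  rw [div_eq_iff (by positivity)]
  field_simp
  linarith

theorem n2_d2 {τ : ℝ} (h : 0 < τ) : HasDerivAt n2d (n2 τ - 2 * w2 τ) τ := by
  have h1 : 0 < Real.exp τ - 1 := by
    have := Real.add_one_lt_exp h.ne'
    linarith
  have hL : HasDerivAt (fun t => Real.log (Real.exp t - 1)) (Real.exp τ / (Real.exp τ - 1)) τ :=
    ((Real.hasDerivAt_exp τ).sub_const 1).log h1.ne'
  have hE : HasDerivAt (fun t : ℝ => Real.exp t) (Real.exp τ) τ := Real.hasDerivAt_exp τ
  have hE' : HasDerivAt (fun t : ℝ => Real.exp (-t)) (Real.exp (-τ) * (-1)) τ :=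
    ((hasDerivAt_id τ).neg).exp
  have hf : HasDerivAt n2d (Real.exp τ * (Real.log (Real.exp τ - 1) - τ)
        + Real.exp τ * (Real.exp τ / (Real.exp τ - 1) - 1)
        - (Real.exp (-τ) * (-1) * Real.log (Real.exp τ - 1)
        + Real.exp (-τ) * (Real.exp τ / (Real.exp τ - 1))) + -(2 * w2 τ)) τ :=
    ((hE.mul (hL.sub (hasDerivAt_id τ))).sub (hE'.mul hL)).add (cth_d h)
  refine hf.congr_deriv ?_
  rw [n2_eq h, Real.exp_neg]
  have hp := Real.exp_pos τ
  set E := Real.exp τ with hEd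
  have h2 : E - 1 ≠ 0 := h1.ne'
  field_simp
  ring

theorem w2_pos {τ : ℝ} (h : 0 < τ) : 0 < w2 τ := by
  have hs : 0 < Real.sinh (τ / 2) := Real.sinh_pos_iff.mpr (by linarith)
  unfold w2
  positivity

theorem w2_le {τ : ℝ} (h : 0 < τ) : w2 τ ≤ Lpp τ := by
  have hs : 0 < Real.sinh (τ / 2) := Real.sinh_pos_iff.mpr (by linarith)
  have hc := Real.one_le_cosh (τ / 2)
  unfold w2 Lpp
  exact div_le_div_of_nonneg_right hc (by positivity)

theorem n2_near {τ : ℝ} (h : 0 < τ) (h1 : τ ≤ 1) : |n2 τ| ≤ 20 * (1 + |Real.log τ|) := by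
  rw [n2_eq h]
  have hlog := KI_log_near h h1
  have hE : Real.exp τ ≤ 3 := by
    have h3 : Real.exp τ ≤ Real.exp 1 := Real.exp_le_exp.2 h1
    have := Real.exp_one_lt_d9
    linarith
  have hE0 : 0 < Real.exp τ := Real.exp_pos _
  have hE' : Real.exp (-τ) ≤ 1 := by
    rw [Real.exp_le_one_iff]
    linarith
  have hE0' : 0 < Real.exp (-τ) := Real.exp_pos _
  have hL0 := abs_nonneg (Real.log (Real.exp τ - 1))
  have c1 : |Real.exp τ * (Real.log (Real.exp τ - 1) - τ)| ≤
      3 * (|Real.log (Real.exp τ - 1)| + 1) := by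
    rw [abs_mul, abs_of_pos hE0]
    refine mul_le_mul hE ?_ (abs_nonneg _) (by norm_num)
    have := abs_sub (Real.log (Real.exp τ - 1)) τ
    rw [abs_of_pos h] at this
    linarith
  have c2 : |Real.exp (-τ) * Real.log (Real.exp τ - 1)| ≤ |Real.log (Real.exp τ - 1)| := by
    rw [abs_mul, abs_of_pos hE0']
    calc Real.exp (-τ) * |Real.log (Real.exp τ - 1)|
        ≤ 1 * |Real.log (Real.exp τ - 1)| := mul_le_mul_of_nonneg_right hE' hL0
      _ = _ := one_mul _
  have c3 := abs_add_le (1 + Real.exp τ * (Real.log (Real.exp τ - 1) - τ))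
    (Real.exp (-τ) * Real.log (Real.exp τ - 1))
  have c4 := abs_add_le 1 (Real.exp τ * (Real.log (Real.exp τ - 1) - τ))
  rw [abs_one] at c4
  have hl0 := abs_nonneg (Real.log τ)
  linarith

theorem n2_far {τ : ℝ} (h : 1 ≤ τ) : |n2 τ| ≤ 10 ∧ |n2d τ| ≤ 10 := by
  have h0 : 0 < τ := by linarith
  obtain ⟨l1, l2⟩ := KI_log_far h
  have hx : 0 < Real.exp (-τ) := Real.exp_pos _
  have hE0 : 0 < Real.exp τ := Real.exp_pos _
  have hmul : Real.exp τ * Real.exp (-τ) = 1 := by
    rw [← Real.exp_add, add_neg_cancel, Real.exp_zero]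
  have hte : Real.exp (-τ) * τ ≤ 1 := by
    have h3 : τ ≤ Real.exp τ := by linarith [Real.add_one_le_exp τ]
    have h4 := mul_le_mul_of_nonneg_left h3 hx.le
    linarith
  have g1 : |Real.exp τ * Real.log (1 - Real.exp (-τ))| ≤ 2 := by
    rw [abs_mul, abs_of_pos hE0]
    calc Real.exp τ * |Real.log (1 - Real.exp (-τ))|
        ≤ Real.exp τ * (2 * Real.exp (-τ)) := mul_le_mul_of_nonneg_left l1 hE0.le
      _ = 2 * (Real.exp τ * Real.exp (-τ)) := by ring
      _ ≤ 2 := by rw [hmul]; norm_num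
  have g2 : |Real.exp (-τ) * (τ + Real.log (1 - Real.exp (-τ)))| ≤ 2 := by
    rw [mul_add]
    have h5 : |Real.exp (-τ) * Real.log (1 - Real.exp (-τ))| ≤ 1 := by
      rw [abs_mul, abs_of_pos hx]
      calc Real.exp (-τ) * |Real.log (1 - Real.exp (-τ))|
          ≤ 1 * (2 * Real.exp (-τ)) := mul_le_mul (by linarith) l1 (abs_nonneg _) zero_le_one
        _ ≤ 1 := by linarith
    have h6 : |Real.exp (-τ) * τ| ≤ 1 := by
      rw [abs_of_pos (mul_pos hx h0)]
      exact hte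
    have := abs_add_le (Real.exp (-τ) * τ) (Real.exp (-τ) * Real.log (1 - Real.exp (-τ)))
    linarith
  have hc : |cth τ| ≤ 4 := by
    have h1 : 0 < Real.exp τ - 1 := by
      have := Real.add_one_lt_exp h0.ne'
      linarith
    rw [cth_eq h0, abs_of_pos (div_pos (by linarith) h1), div_le_iff₀ h1]
    have h2 : 2 ≤ Real.exp τ := by linarith [Real.add_one_le_exp τ]
    linarith
  constructor
  · have e1 : n2 τ = 1 + Real.exp τ * Real.log (1 - Real.exp (-τ)) +
        Real.exp (-τ) * (τ + Real.log (1 - Real.exp (-τ))) := by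
      unfold n2
      rw [KI_log_exp h0]
    rw [e1]
    have a1 := abs_add_le (1 + Real.exp τ * Real.log (1 - Real.exp (-τ)))
      (Real.exp (-τ) * (τ + Real.log (1 - Real.exp (-τ))))
    have a2 := abs_add_le 1 (Real.exp τ * Real.log (1 - Real.exp (-τ)))
    rw [abs_one] at a2
    linarith
  · have e1 : n2d τ = Real.exp τ * Real.log (1 - Real.exp (-τ))
        - Real.exp (-τ) * (τ + Real.log (1 - Real.exp (-τ))) + cth τ := by
      unfold n2d
      rw [KI_log_exp h0]
      ring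
    rw [e1]
    have i1 := abs_add_le (Real.exp τ * Real.log (1 - Real.exp (-τ))
        - Real.exp (-τ) * (τ + Real.log (1 - Real.exp (-τ)))) (cth τ)
    have i2 := abs_sub (Real.exp τ * Real.log (1 - Real.exp (-τ)))
        (Real.exp (-τ) * (τ + Real.log (1 - Real.exp (-τ))))
    linarith

/-- `n2' - coth(τ/2) → 0` at `0+` -/
theorem n2_z1 : Tendsto (fun τ => n2d τ - cth τ) (𝓝[>] 0) (𝓝 0) := by
  have h1 : Tendsto (fun τ : ℝ => τ * |Real.log τ| + τ) (𝓝[>] 0) (𝓝 0) := by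
    have hc : Continuous (fun τ : ℝ => |τ * Real.log τ| + τ) :=
      (Real.continuous_mul_log.abs).add continuous_id
    have h2 : Tendsto (fun τ : ℝ => |τ * Real.log τ| + τ) (𝓝[>] 0) (𝓝 0) := by
      have h3 := (hc.tendsto 0).mono_left (nhdsWithin_le_nhds (s := Set.Ioi 0))
      simpa using h3
    refine h2.congr' ?_
    filter_upwards [self_mem_nhdsWithin] with τ hτ
    rw [abs_mul, abs_of_pos (show (0 : ℝ) < τ from hτ)]
  have h2 : Tendsto (fun τ : ℝ => 6 * (τ * |Real.log τ| + τ) + 3 * τ) (𝓝[>] 0) (𝓝 0) := by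
    have h3 : Tendsto (fun τ : ℝ => 3 * τ) (𝓝[>] 0) (𝓝 0) := by
      have hc : Continuous (fun τ : ℝ => 3 * τ) := by fun_prop
      have h4 := (hc.tendsto 0).mono_left (nhdsWithin_le_nhds (s := Set.Ioi 0))
      simpa using h4
    simpa using (h1.const_mul 6).add h3
  refine squeeze_zero_norm' ?_ h2
  have hmem : Set.Ioo (0 : ℝ) 1 ∈ 𝓝[>] (0 : ℝ) := Ioo_mem_nhdsGT one_pos
  filter_upwards [hmem] with τ hτ
  obtain ⟨h0, hle⟩ := hτ
  have hlog := KI_log_near h0 hle.le
  have hE : Real.exp τ ≤ 3 := by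
    have h3 : Real.exp τ ≤ Real.exp 1 := Real.exp_le_exp.2 hle.le
    have := Real.exp_one_lt_d9
    linarith
  have hE0 : 0 < Real.exp τ := Real.exp_pos _
  have hd : |Real.exp τ - Real.exp (-τ)| ≤ 6 * τ := by
    have a1 : Real.exp τ - 1 ≤ 2 * τ := by
      have h3 := Real.abs_exp_sub_one_sub_id_le (x := τ) (by rw [abs_of_pos h0]; exact hle.le)
      have h4 := (abs_le.mp h3).2
      nlinarith
    have a2 : 1 - τ ≤ Real.exp (-τ) := by linarith [Real.add_one_le_exp (-τ)]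
    have a3 : Real.exp (-τ) ≤ Real.exp τ := Real.exp_le_exp.2 (by linarith)
    rw [abs_of_nonneg (by linarith)]
    linarith
  have hform : n2d τ - cth τ = (Real.exp τ - Real.exp (-τ)) * Real.log (Real.exp τ - 1)
      - Real.exp τ * τ := by
    unfold n2d
    ring
  rw [Real.norm_eq_abs, hform]
  have c1 := abs_sub ((Real.exp τ - Real.exp (-τ)) * Real.log (Real.exp τ - 1)) (Real.exp τ * τ)
  have c2 : |(Real.exp τ - Real.exp (-τ)) * Real.log (Real.exp τ - 1)| ≤
      6 * τ * (|Real.log τ| + 1) := by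
    rw [abs_mul]
    exact mul_le_mul hd hlog (abs_nonneg _) (by linarith)
  have c3 : |Real.exp τ * τ| ≤ 3 * τ := by
    rw [abs_of_pos (mul_pos hE0 h0)]
    exact mul_le_mul_of_nonneg_right hE h0.le
  have c4 : 6 * τ * (|Real.log τ| + 1) = 6 * (τ * |Real.log τ| + τ) := by ring
  linarith

/-- the difference formula in one variable -/
theorem k2_by_parts {C C' C'' : ℝ → ℝ}
    (h1 : ∀ τ, HasDerivAt C (C' τ) τ) (h2 : ∀ τ, HasDerivAt C' (C'' τ) τ)
    (hc : Continuous C'') (h0 : C' 0 = 0) {K κ : ℝ} (hκ : 0 < κ)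
    (hd : ∀ τ, |C τ| ≤ K * Real.exp (-(κ * |τ|)) ∧ |C' τ| ≤ K * Real.exp (-(κ * |τ|)) ∧
      |C'' τ| ≤ K * Real.exp (-(κ * |τ|))) :
    IntegrableOn (fun τ => (C 0 - C τ) * w2 τ) (Ioi 0) ∧
    IntegrableOn (fun τ => (-C'' τ + C τ) * n2 τ) (Ioi 0) ∧
    ∫ τ in Ioi (0:ℝ), (-C'' τ + C τ) * n2 τ =
      - 2 * (∫ τ in Ioi (0:ℝ), (C 0 - C τ) * w2 τ) - C 0 := by
  have hCc : Continuous C := continuous_iff_continuousAt.2 (fun τ => (h1 τ).continuousAt)
  have hK0 : 0 ≤ K := by
    have h := (hd 0).1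
    have h2 : (0:ℝ) ≤ K * Real.exp (-(κ * |0|)) := le_trans (abs_nonneg _) h
    simpa using h2
  have hexp1 : ∀ τ : ℝ, Real.exp (-(κ * |τ|)) ≤ 1 := by
    intro τ
    rw [Real.exp_le_one_iff]
    have := mul_nonneg hκ.le (abs_nonneg τ)
    linarith
  have hKb : ∀ τ : ℝ, K * Real.exp (-(κ * |τ|)) ≤ K := by
    intro τ
    have := hexp1 τ
    nlinarith
  have hC''K : ∀ τ, |C'' τ| ≤ K := fun τ => (hd τ).2.2.trans (hKb τ)
  have hnear : ∀ τ : ℝ, 0 ≤ τ → |C' τ| ≤ K * τ ∧ |C 0 - C τ| ≤ K * τ ^ 2 := fun τ hτ =>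
    NB_near h1 h2 h0 hK0 hC''K hτ
  have hw2c : ContinuousOn w2 (Ioi 0) := by
    unfold w2
    refine continuousOn_const.div (by fun_prop) fun τ hτ => ?_
    have hs : 0 < Real.sinh (τ / 2) := Real.sinh_pos_iff.mpr (by linarith [mem_Ioi.1 hτ])
    positivity
  -- integrability of the second integrand
  have hI2 : IntegrableOn (fun τ => (C 0 - C τ) * w2 τ) (Ioi 0) := by
    have hI := (KerN.by_parts n1_kerN h1 h2 hc h0 hκ hd).1
    refine Integrable.mono hI ?_ ?_
    · exact ((continuousOn_const.sub hCc.continuousOn).mul hw2c).aestronglyMeasurable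
        measurableSet_Ioi
    · refine (ae_restrict_iff' measurableSet_Ioi).2 (Eventually.of_forall fun τ hτ => ?_)
      have hτ0 : (0:ℝ) < τ := hτ
      rw [Real.norm_eq_abs, Real.norm_eq_abs, abs_mul, abs_mul, abs_of_pos (w2_pos hτ0),
        abs_of_pos (Lpp_pos hτ0.ne')]
      exact mul_le_mul_of_nonneg_left (w2_le hτ0) (abs_nonneg _)
  -- integrability of the first integrand
  have hI1 : IntegrableOn (fun τ => (-C'' τ + C τ) * n2 τ) (Ioi 0) := by
    have hf : Continuous fun τ => -C'' τ + C τ := hc.neg.add hCc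
    have hfd : ∀ τ, |-C'' τ + C τ| ≤ (2 * K) * Real.exp (-(κ * |τ|)) := by
      intro τ
      have a1 := abs_add_le (-C'' τ) (C τ)
      rw [abs_neg] at a1
      have a2 := (hd τ).2.2
      have a3 := (hd τ).1
      linarith
    have hnc : ContinuousOn n2 (Ioi 0) := fun τ hτ =>
      (n2_d1 hτ).continuousAt.continuousWithinAt
    have hfn : ContinuousOn (fun τ => (-C'' τ + C τ) * n2 τ) (Ioi 0) := hf.continuousOn.mul hnc
    have hsplit : Ioi (0:ℝ) = Ioc 0 1 ∪ Ioi 1 := by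
      rw [Ioc_union_Ioi_eq_Ioi]; norm_num
    have hfK : ∀ τ, |-C'' τ + C τ| ≤ 2 * K := by
      intro τ
      have a1 := hfd τ
      have a2 := hKb τ
      linarith
    rw [hsplit]
    refine IntegrableOn.union ?_ ?_
    · have hg : IntegrableOn (fun τ : ℝ => 2 * K * (20 * (1 + |Real.log τ|))) (Ioc 0 1) := by
        have h1 : IntegrableOn (fun τ : ℝ => |Real.log τ|) (Ioc 0 1) := by
          have h := (intervalIntegral.intervalIntegrable_log' (a := 0) (b := 1)).1
          exact h.abs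
        have h0 : IntegrableOn (fun _ : ℝ => (1:ℝ)) (Ioc 0 1) :=
          integrableOn_const measure_Ioc_lt_top.ne
        exact ((h0.add h1).const_mul 20).const_mul (2 * K)
      refine Integrable.mono' hg ?_ ?_
      · exact (hfn.mono (fun x hx => hx.1)).aestronglyMeasurable measurableSet_Ioc
      · refine (ae_restrict_iff' measurableSet_Ioc).2 (Eventually.of_forall ?_)
        intro τ hτ
        rw [Real.norm_eq_abs, abs_mul]
        exact mul_le_mul (hfK τ) (n2_near hτ.1 hτ.2) (abs_nonneg _) (by linarith)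
    · have hg : IntegrableOn (fun τ : ℝ => 2 * K * 10 * Real.exp (-κ * τ)) (Ioi 1) :=
        (exp_neg_integrableOn_Ioi 1 hκ).const_mul _
      refine Integrable.mono' hg ?_ ?_
      · exact (hfn.mono (fun x (hx : 1 < x) => lt_trans one_pos hx)).aestronglyMeasurable
          measurableSet_Ioi
      · refine (ae_restrict_iff' measurableSet_Ioi).2 (Eventually.of_forall ?_)
        intro τ hτ
        have hτ1 : (1:ℝ) < τ := hτ
        rw [Real.norm_eq_abs, abs_mul]
        have h1 := hfd τ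
        rw [abs_of_pos (lt_trans one_pos hτ1)] at h1
        have h2 := (n2_far hτ1.le).1
        calc |-C'' τ + C τ| * |n2 τ| ≤ (2 * K * Real.exp (-(κ * τ))) * 10 :=
              mul_le_mul h1 h2 (abs_nonneg _) (mul_nonneg (by linarith) (Real.exp_pos _).le)
          _ = 2 * K * 10 * Real.exp (-κ * τ) := by
              rw [show -(κ * τ) = -κ * τ by ring]; ring
  refine ⟨hI2, hI1, ?_⟩
  -- the antiderivative
  set H : ℝ → ℝ := fun τ => -C' τ * n2 τ + C τ * n2d τ - C 0 * cth τ with hH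
  have hHd : ∀ τ : ℝ, 0 < τ → HasDerivAt H
      ((-C'' τ + C τ) * n2 τ + 2 * ((C 0 - C τ) * w2 τ)) τ := by
    intro τ hτ
    have a1 := (h2 τ).neg.mul (n2_d1 hτ)
    have a2 := (h1 τ).mul (n2_d2 hτ)
    have a3 := (cth_d hτ).const_mul (C 0)
    have a4 := (a1.add a2).sub a3
    have a5 : HasDerivAt H (((-C'' τ) * n2 τ + (-C' τ) * n2d τ) +
        (C' τ * n2d τ + C τ * (n2 τ - 2 * w2 τ)) - C 0 * (-(2 * w2 τ))) τ := by
      refine a4.congr_of_eventuallyEq (Eventually.of_forall ?_)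
      intro y
      simp [hH]
    refine a5.congr_deriv ?_
    ring
  have hexpT : Tendsto (fun τ : ℝ => K * Real.exp (-(κ * |τ|))) atTop (𝓝 0) := by
    have b1 : Tendsto (fun τ : ℝ => κ * |τ|) atTop atTop :=
      (tendsto_abs_atTop_atTop).const_mul_atTop hκ
    have b2 : Tendsto (fun τ : ℝ => Real.exp (-(κ * |τ|))) atTop (𝓝 0) :=
      Real.tendsto_exp_neg_atTop_nhds_zero.comp b1
    have b3 := b2.const_mul K
    rwa [mul_zero] at b3
  have hHtop : Tendsto H atTop (𝓝 (-C 0)) := by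
    have c1 : Tendsto (fun τ => -C' τ * n2 τ) atTop (𝓝 0) := by
      have e1 : Tendsto (fun τ : ℝ => (K * Real.exp (-(κ * |τ|))) * 10) atTop (𝓝 0) := by
        have := hexpT.mul_const 10
        rwa [zero_mul] at this
      refine squeeze_zero_norm' ?_ e1
      filter_upwards [eventually_ge_atTop (1:ℝ)] with τ hτ
      rw [Real.norm_eq_abs, abs_mul, abs_neg]
      exact mul_le_mul (hd τ).2.1 (n2_far hτ).1 (abs_nonneg _)
        (mul_nonneg hK0 (Real.exp_pos _).le)
    have c2 : Tendsto (fun τ => C τ * n2d τ) atTop (𝓝 0) := by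
      have e1 : Tendsto (fun τ : ℝ => (K * Real.exp (-(κ * |τ|))) * 10) atTop (𝓝 0) := by
        have := hexpT.mul_const 10
        rwa [zero_mul] at this
      refine squeeze_zero_norm' ?_ e1
      filter_upwards [eventually_ge_atTop (1:ℝ)] with τ hτ
      rw [Real.norm_eq_abs, abs_mul]
      exact mul_le_mul (hd τ).1 (n2_far hτ).2 (abs_nonneg _)
        (mul_nonneg hK0 (Real.exp_pos _).le)
    have c3 : Tendsto (fun τ : ℝ => C 0 * cth τ) atTop (𝓝 (C 0 * 1)) := by
      have e1 : Tendsto (fun τ : ℝ => 1 + 2 * (1 / (Real.exp τ - 1))) atTop (𝓝 (1 + 2 * 0)) := by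
        have f1 : Tendsto (fun τ : ℝ => Real.exp τ - 1) atTop atTop :=
          tendsto_atTop_add_const_right atTop (-1) Real.tendsto_exp_atTop
        have f2 : Tendsto (fun τ : ℝ => 1 / (Real.exp τ - 1)) atTop (𝓝 0) :=
          Tendsto.div_atTop tendsto_const_nhds f1
        exact (f2.const_mul 2).const_add 1
      rw [mul_zero, add_zero] at e1
      refine (e1.congr' ?_).const_mul (C 0)
      filter_upwards [eventually_gt_atTop (0:ℝ)] with τ hτ
      have h1 : 0 < Real.exp τ - 1 := by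
        have := Real.add_one_lt_exp hτ.ne'
        linarith
      rw [cth_eq hτ]
      field_simp
      ring
    have c4 := (c1.add c2).sub c3
    have e0 : (0:ℝ) + 0 - C 0 * 1 = -C 0 := by ring
    rw [e0] at c4
    exact c4
  have hH0 : Tendsto H (𝓝[>] 0) (𝓝 0) := by
    have c1 : Tendsto (fun τ => -C' τ * n2 τ) (𝓝[>] 0) (𝓝 0) := by
      have e1 : Tendsto (fun τ : ℝ => K * (20 * (τ + |τ * Real.log τ|))) (𝓝[>] 0) (𝓝 0) := by
        have f1 : Tendsto (fun τ : ℝ => K * (20 * (τ + |τ * Real.log τ|))) (𝓝 0)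
            (𝓝 (K * (20 * (0 + |0 * Real.log 0|)))) := by
          have f2 : Continuous (fun τ : ℝ => K * (20 * (τ + |τ * Real.log τ|))) :=
            continuous_const.mul (continuous_const.mul
              (continuous_id.add (Real.continuous_mul_log.abs)))
          exact f2.tendsto 0
        have f3 : K * (20 * (0 + |0 * Real.log 0|)) = 0 := by simp
        rw [f3] at f1
        exact f1.mono_left nhdsWithin_le_nhds
      refine squeeze_zero_norm' ?_ e1
      have hev : ∀ᶠ τ : ℝ in 𝓝[>] 0, τ ∈ Ioo (0:ℝ) 1 := Ioo_mem_nhdsGT one_pos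
      filter_upwards [hev] with τ hτ
      rw [Real.norm_eq_abs, abs_mul, abs_neg]
      calc |C' τ| * |n2 τ| ≤ (K * τ) * (20 * (1 + |Real.log τ|)) :=
            mul_le_mul (hnear τ hτ.1.le).1 (n2_near hτ.1 hτ.2.le) (abs_nonneg _)
              (mul_nonneg hK0 hτ.1.le)
        _ = K * (20 * (τ + |τ * Real.log τ|)) := by
            rw [abs_mul, abs_of_pos hτ.1]; ring
    have c2 : Tendsto (fun τ => C τ * (n2d τ - cth τ)) (𝓝[>] 0) (𝓝 0) := by
      have e1 : Tendsto C (𝓝[>] 0) (𝓝 (C 0)) := (hCc.tendsto 0).mono_left nhdsWithin_le_nhds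
      have e2 := e1.mul n2_z1
      rwa [mul_zero] at e2
    have c3 : Tendsto (fun τ => (C τ - C 0) * cth τ) (𝓝[>] 0) (𝓝 0) := by
      have e1 : Tendsto (fun τ : ℝ => 5 * (K * τ)) (𝓝[>] 0) (𝓝 0) := by
        have f1 : Tendsto (fun τ : ℝ => 5 * (K * τ)) (𝓝 0) (𝓝 (5 * (K * 0))) :=
          (continuous_const.mul (continuous_const.mul continuous_id)).tendsto 0
        rw [mul_zero, mul_zero] at f1
        exact f1.mono_left nhdsWithin_le_nhds
      refine squeeze_zero_norm' ?_ e1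
      have hev : ∀ᶠ τ : ℝ in 𝓝[>] 0, τ ∈ Ioo (0:ℝ) 1 := Ioo_mem_nhdsGT one_pos
      filter_upwards [hev] with τ hτ
      have hτ0 : (0:ℝ) < τ := hτ.1
      have hE : Real.exp τ ≤ 3 := by
        have h3 : Real.exp τ ≤ Real.exp 1 := Real.exp_le_exp.2 hτ.2.le
        have := Real.exp_one_lt_d9
        linarith
      have hτE : τ ≤ Real.exp τ - 1 := by linarith [Real.add_one_le_exp τ]
      have hcth : |cth τ| ≤ 4 / τ := by
        rw [cth_eq hτ0, abs_of_pos (div_pos (by linarith [Real.exp_pos τ]) (by linarith))]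
        exact div_le_div₀ (by norm_num) (by linarith) hτ0 hτE
      rw [Real.norm_eq_abs, abs_mul, abs_sub_comm]
      calc |C 0 - C τ| * |cth τ| ≤ (K * τ ^ 2) * (4 / τ) :=
            mul_le_mul (hnear τ hτ0.le).2 hcth (abs_nonneg _) (by positivity)
        _ = 4 * (K * τ) := by field_simp
        _ ≤ 5 * (K * τ) := by nlinarith [mul_nonneg hK0 hτ0.le]
    have c5 := (c1.add c2).add c3
    rw [add_zero, add_zero] at c5
    refine c5.congr fun τ => ?_
    simp only [hH]
    ring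
  -- fundamental theorem
  set G : ℝ → ℝ := fun τ => if 0 < τ then H τ else 0 with hG
  have hGcont : ContinuousWithinAt G (Ici 0) 0 := by
    have hG0 : G 0 = 0 := by simp [hG]
    have e1 : Tendsto G (𝓝[>] 0) (𝓝 (G 0)) := by
      rw [hG0]
      refine hH0.congr' ?_
      filter_upwards [self_mem_nhdsWithin] with τ hτ
      have hτ0 : (0:ℝ) < τ := hτ
      simp [hG, hτ0]
    have e2 : ContinuousWithinAt G (Ioi 0) 0 := e1
    exact continuousWithinAt_Ioi_iff_Ici.1 e2
  have hGd : ∀ τ ∈ Ioi (0:ℝ), HasDerivAt G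
      ((-C'' τ + C τ) * n2 τ + 2 * ((C 0 - C τ) * w2 τ)) τ := by
    intro τ hτ
    refine (hHd τ hτ).congr_of_eventuallyEq ?_
    filter_upwards [Ioi_mem_nhds (show (0:ℝ) < τ from hτ)] with y hy
    have hy0 : (0:ℝ) < y := hy
    simp [hG, hy0]
  have hGtop : Tendsto G atTop (𝓝 (-C 0)) := by
    refine hHtop.congr' ?_
    filter_upwards [eventually_gt_atTop (0:ℝ)] with τ hτ
    simp [hG, hτ]
  have hI : IntegrableOn (fun τ => (-C'' τ + C τ) * n2 τ +
      2 * ((C 0 - C τ) * w2 τ)) (Ioi 0) := hI1.add (hI2.const_mul 2)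
  have hFTC := integral_Ioi_of_hasDerivAt_of_tendsto hGcont hGd hI hGtop
  have hG0 : G 0 = 0 := by simp [hG]
  rw [hG0, sub_zero, integral_add hI1 (hI2.const_mul 2), integral_const_mul] at hFTC
  linarith

theorem k2_exp0 (r s : ℝ) :
    k2 (Real.exp (-r)) (Real.exp (-s)) = Real.exp (-(1 * (r + s))) * n2 (s - r) := by
  unfold k2 n2
  have e1 : Real.exp (-s) / Real.exp (-r) = Real.exp (-(s - r)) := by
    rw [← Real.exp_sub]; congr 1; ring
  have e2 : Real.exp (-r) / Real.exp (-s) = Real.exp (s - r) := by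
    rw [← Real.exp_sub]; congr 1; ring
  have e3 : Real.log (1 - Real.exp (s - r)) = Real.log (Real.exp (s - r) - 1) := by
    rw [← Real.log_neg_eq_log, neg_sub]
  rw [e1, e2, e3]
  have a1 : Real.exp (-r) * Real.exp (-s) = Real.exp (-(1 * (r + s))) := by
    rw [← Real.exp_add]; congr 1; ring
  have a2 : Real.exp (-r) ^ 2 = Real.exp (-(1 * (r + s))) * Real.exp (s - r) := by
    rw [← Real.exp_nat_mul, ← Real.exp_add]; congr 1; push_cast; ring
  have a3 : Real.exp (-s) ^ 2 = Real.exp (-(1 * (r + s))) * Real.exp (-(s - r)) := by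
    rw [← Real.exp_nat_mul, ← Real.exp_add]; congr 1; push_cast; ring
  rw [a1, a2, a3]; ring

theorem k2_comm (Y Z : ℝ) : k2 Y Z = k2 Z Y := by
  unfold k2; ring

theorem k2_exp {r s : ℝ} (h : r ≠ s) :
    k2 (Real.exp (-r)) (Real.exp (-s)) = Real.exp (-(1 * (r + s))) * n2 |r - s| := by
  rcases lt_or_gt_of_ne h with h1 | h1
  · rw [abs_of_neg (by linarith : r - s < 0), neg_sub, k2_exp0]
  · rw [abs_of_pos (by linarith : 0 < r - s), k2_comm, k2_exp0, add_comm s r]

theorem K2_int {g : ℝ → ℝ} {K κ : ℝ} (hκ : 0 < κ) (hg : NA_E K κ g) :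
    Integrable (fun z : ℝ × ℝ => g z.1 * g (z.1 + z.2) * n2 |z.2|) := by
  have hκ2 : 0 < κ / 2 := half_pos hκ
  have hnc : ContinuousOn n2 (Ioi 0) := fun τ hτ => (n2_d1 hτ).continuousAt.continuousWithinAt
  have h1 : IntegrableOn (fun τ => Real.exp (-((κ / 2) * |τ|)) * n2 τ) (Ioi 0) := by
    have hfn : ContinuousOn (fun τ => Real.exp (-((κ / 2) * |τ|)) * n2 τ) (Ioi 0) :=
      (Real.continuous_exp.comp (continuous_const.mul continuous_abs).neg).continuousOn.mul hnc
    have hsplit : Ioi (0:ℝ) = Ioc 0 1 ∪ Ioi 1 := by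
      rw [Ioc_union_Ioi_eq_Ioi]; norm_num
    rw [hsplit]
    refine IntegrableOn.union ?_ ?_
    · have hg : IntegrableOn (fun τ : ℝ => 20 * (1 + |Real.log τ|)) (Ioc 0 1) := by
        have h1 : IntegrableOn (fun τ : ℝ => |Real.log τ|) (Ioc 0 1) := by
          have h := (intervalIntegral.intervalIntegrable_log' (a := 0) (b := 1)).1
          exact h.abs
        have h0 : IntegrableOn (fun _ : ℝ => (1:ℝ)) (Ioc 0 1) :=
          integrableOn_const measure_Ioc_lt_top.ne
        exact (h0.add h1).const_mul 20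
      refine Integrable.mono' hg ?_ ?_
      · exact (hfn.mono (fun x hx => hx.1)).aestronglyMeasurable measurableSet_Ioc
      · refine (ae_restrict_iff' measurableSet_Ioc).2 (Eventually.of_forall ?_)
        intro τ hτ
        rw [Real.norm_eq_abs, abs_mul, abs_of_pos (Real.exp_pos _)]
        have a1 : Real.exp (-((κ / 2) * |τ|)) ≤ 1 := by
          rw [Real.exp_le_one_iff]
          have := mul_nonneg hκ2.le (abs_nonneg τ)
          linarith
        have a2 := n2_near hτ.1 hτ.2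
        calc _ ≤ 1 * |n2 τ| := mul_le_mul_of_nonneg_right a1 (abs_nonneg _)
          _ ≤ _ := by rw [one_mul]; exact a2
    · have hg : IntegrableOn (fun τ : ℝ => 10 * Real.exp (-(κ / 2) * τ)) (Ioi 1) :=
        (exp_neg_integrableOn_Ioi 1 hκ2).const_mul _
      refine Integrable.mono' hg ?_ ?_
      · exact (hfn.mono (fun x (hx : 1 < x) => lt_trans one_pos hx)).aestronglyMeasurable
          measurableSet_Ioi
      · refine (ae_restrict_iff' measurableSet_Ioi).2 (Eventually.of_forall ?_)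
        intro τ hτ
        have hτ1 : (1:ℝ) < τ := hτ
        rw [Real.norm_eq_abs, abs_mul, abs_of_pos (Real.exp_pos _), abs_of_pos (lt_trans one_pos hτ1)]
        have h2 := (n2_far hτ1.le).1
        calc Real.exp (-((κ / 2) * τ)) * |n2 τ| ≤ Real.exp (-((κ / 2) * τ)) * 10 :=
              mul_le_mul_of_nonneg_left h2 (Real.exp_pos _).le
          _ = 10 * Real.exp (-(κ / 2) * τ) := by
              rw [show -((κ / 2) * τ) = -(κ / 2) * τ by ring]; ring
  have h2 : Integrable (fun τ : ℝ => Real.exp (-((κ / 2) * |τ|)) * n2 |τ|) := by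
    have h3 := NC_abs h1
    refine h3.congr (Eventually.of_forall fun τ => ?_)
    show Real.exp (-((κ / 2) * |(|τ|)|)) * n2 |τ| = _
    rw [abs_abs]
  have h3 : Integrable (fun z : ℝ × ℝ => Real.exp (-((κ / 2) * |z.1|)) *
      (Real.exp (-((κ / 2) * |z.2|)) * n2 |z.2|)) := (NA_int_exp hκ2).mul_prod h2
  have hcont : Continuous (fun z : ℝ × ℝ => g z.1 * g (z.1 + z.2) *
      (Real.exp ((κ / 2) * |z.1|) * Real.exp ((κ / 2) * |z.2|))) := by
    have c1 := hg.1.comp continuous_fst (X := ℝ × ℝ)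
    have c2 := hg.1.comp (continuous_fst.add continuous_snd) (X := ℝ × ℝ)
    have c3 : Continuous (fun z : ℝ × ℝ => Real.exp ((κ / 2) * |z.1|)) :=
      Real.continuous_exp.comp (continuous_const.mul (continuous_abs.comp continuous_fst))
    have c4 : Continuous (fun z : ℝ × ℝ => Real.exp ((κ / 2) * |z.2|)) :=
      Real.continuous_exp.comp (continuous_const.mul (continuous_abs.comp continuous_snd))
    exact (c1.mul c2).mul (c3.mul c4)
  have h4 := h3.bdd_mul (c := K ^ 2) hcont.aestronglyMeasurable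
    (Eventually.of_forall fun z => by
      have hK := NA_E_nonneg hg
      rw [Real.norm_eq_abs, abs_mul, abs_mul, abs_of_pos (mul_pos (Real.exp_pos _)
        (Real.exp_pos _))]
      have e1 := hg.2 z.1
      have e2 := hg.2 (z.1 + z.2)
      have e3 : |z.2| ≤ |z.1| + |z.1 + z.2| := by
        have h5 := abs_sub (z.1 + z.2) z.1
        have h6 : z.1 + z.2 - z.1 = z.2 := by ring
        rw [h6] at h5
        linarith
      have e4 : Real.exp (-(κ * |z.1|)) * Real.exp (-(κ * |z.1 + z.2|)) *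
          (Real.exp ((κ / 2) * |z.1|) * Real.exp ((κ / 2) * |z.2|)) ≤ 1 := by
        rw [← Real.exp_add, ← Real.exp_add, ← Real.exp_add, Real.exp_le_one_iff]
        have h6 := mul_le_mul_of_nonneg_left e3 hκ.le
        have h7 := mul_nonneg hκ.le (abs_nonneg (z.1 + z.2))
        nlinarith
      calc |g z.1| * |g (z.1 + z.2)| * (Real.exp ((κ / 2) * |z.1|) * Real.exp ((κ / 2) * |z.2|))
          ≤ (K * Real.exp (-(κ * |z.1|))) * (K * Real.exp (-(κ * |z.1 + z.2|))) *
            (Real.exp ((κ / 2) * |z.1|) * Real.exp ((κ / 2) * |z.2|)) := by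
            refine mul_le_mul_of_nonneg_right ?_ (by positivity)
            exact mul_le_mul e1 e2 (abs_nonneg _) (mul_nonneg hK (Real.exp_pos _).le)
        _ = K ^ 2 * (Real.exp (-(κ * |z.1|)) * Real.exp (-(κ * |z.1 + z.2|)) *
            (Real.exp ((κ / 2) * |z.1|) * Real.exp ((κ / 2) * |z.2|))) := by ring
        _ ≤ K ^ 2 * 1 := mul_le_mul_of_nonneg_left e4 (by positivity)
        _ = K ^ 2 := mul_one _)
  refine h4.congr (Eventually.of_forall fun z => ?_)
  show g z.1 * g (z.1 + z.2) * (Real.exp ((κ / 2) * |z.1|) * Real.exp ((κ / 2) * |z.2|)) *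
    (Real.exp (-((κ / 2) * |z.1|)) * (Real.exp (-((κ / 2) * |z.2|)) * n2 |z.2|)) = _
  rw [Real.exp_neg, Real.exp_neg]
  have p1 := (Real.exp_pos ((κ / 2) * |z.1|)).ne'
  have p2 := (Real.exp_pos ((κ / 2) * |z.2|)).ne'
  field_simp

theorem K2_diff {A A' : ℝ → ℝ} (hA : Adm A A') :
    Integrable (fun z : ℝ × ℝ =>
      (A' z.1 + 1 * A z.1) * (A' z.2 + 1 * A z.2) * n2 |z.1 - z.2|) ∧
    IntegrableOn (fun τ => w2 τ * DD A τ) (Ioi 0) ∧
    ∫ z : ℝ × ℝ, (A' z.1 + 1 * A z.1) * (A' z.2 + 1 * A z.2) * n2 |z.1 - z.2| =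
      - 2 * (∫ τ in Ioi (0:ℝ), w2 τ * DD A τ) - 2 * corr A A 0 := by
  obtain ⟨K, κ, hκ, hg⟩ := NC_g hA 1
  obtain ⟨g, hgd⟩ : ∃ g : ℝ → ℝ, g = fun r => A' r + 1 * A r := ⟨_, rfl⟩
  rw [← hgd] at hg
  have hint := K2_int hκ hg
  have e1 : (fun z : ℝ × ℝ => (A' z.1 + 1 * A z.1) * (A' z.2 + 1 * A z.2) * n2 |z.1 - z.2|) =
      fun z : ℝ × ℝ => g z.1 * g z.2 * n2 |z.1 - z.2| := by
    rw [hgd]
  have i1 : Integrable fun z : ℝ × ℝ => g z.1 * g z.2 * n2 |z.1 - z.2| := by
    have h1 := hint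
    rw [NC_shear g n2, NC_mp.integrable_comp_emb NC_emb] at h1
    exact h1
  have e2 : ∫ z : ℝ × ℝ, g z.1 * g z.2 * n2 |z.1 - z.2| =
      ∫ z : ℝ × ℝ, g z.1 * g (z.1 + z.2) * n2 |z.2| := by
    rw [NC_shear g n2]
    exact (NC_mp.integral_comp NC_emb (fun z : ℝ × ℝ => g z.1 * g z.2 * n2 |z.1 - z.2|)).symm
  have e3 : ∫ z : ℝ × ℝ, g z.1 * g (z.1 + z.2) * n2 |z.2| = ∫ τ : ℝ, corr g g τ * n2 |τ| := by
    have h1 := integral_prod_symm (μ := (volume : Measure ℝ)) (ν := (volume : Measure ℝ))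
      (fun z : ℝ × ℝ => g z.1 * g (z.1 + z.2) * n2 |z.2|) hint
    rw [Measure.volume_eq_prod, h1]
    refine integral_congr_ae (Eventually.of_forall fun τ => ?_)
    exact integral_mul_const (n2 |τ|) (fun x => g x * g (x + τ))
  have hev : ∀ τ, corr g g τ = corr g g |τ| := by
    intro τ
    rcases abs_choice τ with h | h
    · rw [h]
    · rw [h, corr_swap]
  have e4 : ∫ τ : ℝ, corr g g τ * n2 |τ| = 2 * ∫ τ in Ioi (0:ℝ), corr g g τ * n2 τ := by
    rw [← integral_comp_abs]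
    refine integral_congr_ae (Eventually.of_forall fun τ => ?_)
    show corr g g τ * n2 |τ| = corr g g |τ| * n2 |τ|
    rw [← hev]
  obtain ⟨K1, κ1, hκ1, hdec⟩ := corr_decay hA hA
  have hd0 : corr A A' 0 = 0 := by
    have h3 := corr_parts hA hA 0
    have h4 := corr_swap A A' 0
    rw [neg_zero] at h4
    linarith
  obtain ⟨k1, -, key⟩ := k2_by_parts (C := corr A A) (C' := corr A A') (C'' := fun τ => -corr A' A' τ)
    (hasDerivAt_corr hA hA) (hasDerivAt_corr' hA hA) (continuous_corr'' hA hA).neg hd0 hκ1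
    (fun τ => ⟨(hdec τ).1, (hdec τ).2.1, by rw [abs_neg]; exact (hdec τ).2.2⟩)
  have e5 : ∫ τ in Ioi (0:ℝ), corr g g τ * n2 τ =
      - 2 * (∫ τ in Ioi (0:ℝ), (corr A A 0 - corr A A τ) * w2 τ) - corr A A 0 := by
    rw [← key]
    refine integral_congr_ae (Eventually.of_forall fun τ => ?_)
    show corr g g τ * n2 τ = (- -corr A' A' τ + corr A A τ) * n2 τ
    rw [hgd, NC_corr hA, neg_neg]
    ring
  have hw : (fun τ => w2 τ * DD A τ) = fun τ => 2 * ((corr A A 0 - corr A A τ) * w2 τ) := by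
    funext τ
    rw [DD_eq hA]
    ring
  have e6 : ∫ τ in Ioi (0:ℝ), w2 τ * DD A τ =
      2 * ∫ τ in Ioi (0:ℝ), (corr A A 0 - corr A A τ) * w2 τ := by
    rw [hw, integral_const_mul]
  refine ⟨by rw [e1]; exact i1, by rw [hw]; exact k1.const_mul 2, ?_⟩
  rw [e1, e2, e3, e4, e5, e6]
  ring

theorem form_k2 {b : ℝ → ℝ} (hb : Bd b) : FInt b b k2 ∧ form b b k2 ≤ 0 := by
  have hA : Adm (Am 1 b) (Amd 1 b) := adm_Am hb (by norm_num)
  have hc := NG_conv (m := 1) (p := b) (q := b) (K := k2) (k := fun r s => n2 |r - s|)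
    (fun r s hrs => k2_exp hrs)
  obtain ⟨h1, h2, h3⟩ := K2_diff hA
  constructor
  · unfold FInt
    rw [integrableOn_th_iff, integrable_congr hc]
    exact h1
  · unfold form
    rw [integral_th, integral_congr_ae hc, h3]
    have a1 : 0 ≤ ∫ τ in Ioi (0:ℝ), w2 τ * DD (Am 1 b) τ :=
      setIntegral_nonneg measurableSet_Ioi fun τ hτ =>
        mul_nonneg (w2_pos hτ).le (DD_nonneg _ _)
    have a2 : 0 ≤ corr (Am 1 b) (Am 1 b) 0 :=
      integral_nonneg fun r => mul_nonneg (Am_nonneg hb 1 r) (Am_nonneg hb 1 _)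
    linarith

end Pool.Agent.H44.DA
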