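import Pool.Agent.H44.DA.Quad
import Pool.Agent.H44.DA.K2
import Pool.Agent.H53.DA.Defs

/-!
# Project DA: bridge from the surplus `Sur` to `Su`, `Su1` of H53/DA/Defs
-/

set_option autoImplicit false
open Real Set MeasureTheory Filter Topology

namespace Pool.Agent.H44.DA
open Pool.Agent.H45.FL Pool.Agent.H51.DG Pool.Agent.H45.DY Pool.Agent.H90.DC Pool.Agent.H44.DE

theorem cc_two_le : cc 2 ≤ 16 / 5 := by
  have h : cc 2 = Real.exp 1 + Real.exp (-1) := by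
    unfold cc
    rw [Real.cosh_eq]
    norm_num
    ring
  rw [h, Real.exp_neg]
  have h1 := Real.exp_one_lt_d9
  have h2 := Real.exp_one_gt_d9
  have h3 : (Real.exp 1)⁻¹ ≤ (2.7:ℝ)⁻¹ := by
    apply inv_anti₀ (by norm_num)
    linarith
  have h4 : (2.7:ℝ)⁻¹ ≤ 0.38 := by norm_num
  linarith

theorem cc_mono {τ : ℝ} (h1 : 0 ≤ τ) (h2 : τ ≤ 2) : cc τ ≤ cc 2 := by
  unfold cc
  have h : Real.cosh (τ / 2) ≤ Real.cosh (2 / 2) := by
    rw [Real.cosh_le_cosh, abs_of_nonneg (by linarith), abs_of_nonneg (by norm_num)]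
    linarith
  linarith

theorem su_bd {m : ℝ} (hm : 0 < m) {b : ℝ → ℝ} (hb : Bd b) :
    0 ≤ ∫ τ in (1:ℝ)..2, DD (Am m b) τ ∧ ∫ τ in (1:ℝ)..2, DD (Am m b) τ ≤ 8 / 5 * Sur m b := by
  have hA : Adm (Am m b) (Amd m b) := adm_Am hb hm
  obtain ⟨-, i1, e1⟩ := Sur_eq hm hb
  have hc := continuous_DD hA
  rw [intervalIntegral.integral_of_le (by norm_num : (1:ℝ) ≤ 2)]
  refine ⟨setIntegral_nonneg measurableSet_Ioc fun τ _ => DD_nonneg _ _, ?_⟩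
  have i2 : IntegrableOn (fun τ => 1 / cc τ * DD (Am m b) τ) (Ioc 1 2) :=
    i1.mono_set fun τ hτ => lt_trans one_pos hτ.1
  have i3 : IntegrableOn (fun τ => DD (Am m b) τ) (Ioc 1 2) :=
    (hc.integrableOn_Icc (a := 1) (b := 2)).mono_set Ioc_subset_Icc_self
  have h1 : ∫ τ in Ioc (1:ℝ) 2, 1 / cc τ * DD (Am m b) τ ≤
      ∫ τ in Ioi (0:ℝ), 1 / cc τ * DD (Am m b) τ := by
    refine setIntegral_mono_set i1 ?_ ?_
    · exact Filter.Eventually.of_forall fun τ => mul_nonneg (div_pos one_pos (cc_pos τ)).le (DD_nonneg _ _)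
    · exact Filter.Eventually.of_forall fun τ hτ => lt_trans one_pos hτ.1
  have h2 : ∫ τ in Ioc (1:ℝ) 2, DD (Am m b) τ ≤
      ∫ τ in Ioc (1:ℝ) 2, 16 / 5 * (1 / cc τ * DD (Am m b) τ) := by
    refine setIntegral_mono_on i3 (i2.const_mul _) measurableSet_Ioc fun τ hτ => ?_
    have h3 : cc τ ≤ 16 / 5 := (cc_mono (by linarith [hτ.1]) hτ.2).trans cc_two_le
    have h4 := cc_pos τ
    have h5 : 1 ≤ 16 / 5 * (1 / cc τ) := by
      rw [mul_one_div, le_div_iff₀ h4]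
      linarith
    have h6 := mul_le_mul_of_nonneg_right h5 (DD_nonneg (Am m b) τ)
    linarith
  rw [integral_const_mul] at h2
  rw [e1]
  linarith

theorem su_le {b : ℝ → ℝ} (hb : Bd b) : 0 ≤ Pool.Agent.H53.DA.Su b ∧
    Pool.Agent.H53.DA.Su b ≤ 8 / 5 * Sur (3 / 2) b := su_bd (by norm_num) hb

theorem su1_le {b : ℝ → ℝ} (hb : Bd b) : 0 ≤ Pool.Agent.H53.DA.Su1 b ∧
    Pool.Agent.H53.DA.Su1 b ≤ 8 / 5 * Sur (1 / 2) b := su_bd (by norm_num) hb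

theorem quad_su {a b : ℝ → ℝ} (ha : Bd a) (hb : Bd b) : FInt a b r3k ∧
    2 * form a b r3k + 1 / 20 * (Pool.Agent.H53.DA.Su a + Pool.Agent.H53.DA.Su b) ≤ N3 a + N3 b := by
  obtain ⟨h1, h2⟩ := quad ha hb
  obtain ⟨h3, h4⟩ := su_le ha
  obtain ⟨h5, h6⟩ := su_le hb
  refine ⟨h1, ?_⟩
  linarith

theorem form_l1k_fint {b : ℝ → ℝ} (hb : Bd b) : FInt b b l1k := (form_l1k hb).1

theorem l1k_su {b : ℝ → ℝ} (hb : Bd b) : FInt b b l1k ∧ Pool.Agent.H53.DA.Su1 b / 4 ≤ -form b b l1k := by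
  have h := sur1_le hb
  obtain ⟨h5, h6⟩ := su1_le hb
  have h7 := Sur_nonneg (1 / 2) b
  refine ⟨form_l1k_fint hb, ?_⟩
  linarith

theorem n3_su {b : ℝ → ℝ} (hb : Bd b) : 0 ≤ Pool.Agent.H53.DA.Su b ∧ 0 ≤ Pool.Agent.H53.DA.Su1 b ∧
    Pool.Agent.H53.DA.Su b / 4 ≤ N3 b := by
  have h := sur3_le hb
  obtain ⟨h3, h4⟩ := su_le hb
  obtain ⟨h5, h6⟩ := su1_le hb
  have h7 := Sur_nonneg (3 / 2) b
  exact ⟨h3, h5, by linarith⟩

theorem k2_su {b : ℝ → ℝ} (hb : Bd b) : FInt b b Pool.Agent.H53.DA.k2 ∧ form b b Pool.Agent.H53.DA.k2 ≤ 0 :=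
  form_k2 hb

end Pool.Agent.H44.DA
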