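import Pool.Agent.H90.DC.PPf
import Pool.Agent.H44.DE.SComb

/-!
# Project DA (class (A)), static job S4: the full quadrant lemma with surplus (note 1995 of helper53, 3(d))

`N3 a + N3 b - 2 form a b r3k ≥ (15/128) (Sur (3/2) a + Sur (3/2) b)`, `Sur m b = ∬ |dA_m|²/c`.
`form a b r3k = ∫ m3 corr A B`, `m3 = f0 - (15/64)/c`, `∫_0^∞ f0 = 0`, `|f0| ≤ 2 Lpp - (15/64)/c`,
`-2 ∫ f0 corr = -2 ∫_0^∞ f0 (C(τ) + C(-τ) - 2 C(0)) ≥ -∫_0^∞ |f0| (DD A + DD B)`.
-/

set_option autoImplicit false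
open Real Set MeasureTheory Filter Topology

namespace Pool.Agent.H44.DA
open Pool.Agent.H45.FL Pool.Agent.H51.DG Pool.Agent.H45.DY Pool.Agent.H90.DC Pool.Agent.H44.DE

/-- the surplus -/
noncomputable def Sur (m : ℝ) (b : ℝ → ℝ) : ℝ :=
  ∫ z : ℝ × ℝ, 1 / cc (z.1 - z.2) * (Am m b z.1 - Am m b z.2) ^ 2

theorem inv_cont : Continuous fun τ : ℝ => 1 / cc τ := by
  have h := cont_inv 1
  simpa only [pow_one] using h

theorem inv_even (τ : ℝ) : 1 / cc (-τ) = 1 / cc τ := by rw [cc_neg]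

theorem Sur_eq {m : ℝ} (hm : 0 < m) {b : ℝ → ℝ} (hb : Bd b) :
    Integrable (fun z : ℝ × ℝ => 1 / cc (z.1 - z.2) * (Am m b z.1 - Am m b z.2) ^ 2) ∧
    IntegrableOn (fun τ => 1 / cc τ * DD (Am m b) τ) (Ioi 0) ∧
    Sur m b = 2 * ∫ τ in Ioi (0:ℝ), 1 / cc τ * DD (Am m b) τ :=
  SComb_fub (adm_Am hb hm) inv_cont inv_even (C := 1) fun τ => by
    rw [abs_of_pos (div_pos one_pos (cc_pos τ))]

theorem Sur_nonneg (m : ℝ) (b : ℝ → ℝ) : 0 ≤ Sur m b :=
  integral_nonneg fun _ => mul_nonneg (div_pos one_pos (cc_pos _)).le (sq_nonneg _)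

/-- `m3` plus a positive function, with integral zero -/
noncomputable def f0 (τ : ℝ) : ℝ := 54 / cc τ ^ 5 - 4 / cc τ ^ 3 - 49 / 64 / cc τ

theorem f0_eq (τ : ℝ) : f0 τ = 54 * (1 / cc τ ^ 5) - 4 * (1 / cc τ ^ 3) - 49 / 64 * (1 / cc τ ^ 1) := by
  unfold f0
  rw [pow_one]
  ring

theorem m3_f0 (τ : ℝ) : m3 τ = f0 τ - 15 / 64 * (1 / cc τ) := by
  unfold m3 ell f0 cc
  ring

theorem f0_cont : Continuous f0 := by
  have h : Continuous fun τ => 54 * (1 / cc τ ^ 5) - 4 * (1 / cc τ ^ 3) - 49 / 64 * (1 / cc τ ^ 1) :=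
    (((cont_inv 5).const_mul 54).sub ((cont_inv 3).const_mul 4)).sub ((cont_inv 1).const_mul (49 / 64))
  exact h.congr fun τ => (f0_eq τ).symm

theorem f0_even (τ : ℝ) : f0 (-τ) = f0 τ := by
  unfold f0
  rw [cc_neg]

theorem f0_int : Integrable f0 := by
  rw [funext f0_eq]
  exact (((int_inv (by norm_num)).const_mul 54).sub ((int_inv (by norm_num)).const_mul 4)).sub
    ((int_inv (by norm_num)).const_mul (49 / 64))

theorem f0_Ioi : ∫ τ in Ioi (0:ℝ), f0 τ = 0 := by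
  have hd : ∀ τ : ℝ, HasDerivAt (fun τ : ℝ => 27 / 2 * (Real.sinh (τ / 2) / cc τ ^ (2 + 2)) +
      49 / 16 * (Real.sinh (τ / 2) / cc τ ^ (0 + 2))) (f0 τ) τ := by
    intro τ
    refine (((hd_s4 τ).const_mul (27 / 2)).add ((hd_s2 τ).const_mul (49 / 16))).congr_deriv ?_
    rw [f0_eq]
    ring
  have ht : Tendsto (fun τ : ℝ => 27 / 2 * (Real.sinh (τ / 2) / cc τ ^ (2 + 2)) +
      49 / 16 * (Real.sinh (τ / 2) / cc τ ^ (0 + 2))) atTop (𝓝 0) := by
    have h1 := (tendsto_exp_half _ (sh_inv (n := 2))).const_mul (27 / 2)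
    have h2 := (tendsto_exp_half _ (sh_inv (n := 0))).const_mul (49 / 16)
    have h3 := h1.add h2
    simpa using h3
  have h := integral_Ioi_of_hasDerivAt_of_tendsto (a := (0:ℝ)) (hd 0).continuousAt.continuousWithinAt
    (fun τ _ => hd τ) f0_int.integrableOn ht
  rw [h]
  simp

theorem abs_f0_le {τ : ℝ} (h : τ ≠ 0) : |f0 τ| ≤ 2 * Lpp τ - 15 / 64 * (1 / cc τ) := by
  have h1 := KE_sinh_pos h
  have h2 := cc_sinh_sq τ
  have h4 := cc_pos τ
  have h5 : 2 * Lpp τ = cc τ / (cc τ ^ 2 - 4) := KE_two_Lpp h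
  rw [h5]
  unfold f0
  generalize cc τ = c at h2 h4
  have hw : 0 < c ^ 2 - 4 := by rw [← h2]; positivity
  obtain ⟨v, hv⟩ : ∃ v, v = c ^ 2 - 4 := ⟨_, rfl⟩
  have hv0 : 0 < v := by rw [hv]; exact hw
  have h6 : v + 4 = c ^ 2 := by rw [hv]; ring
  have e1 : 54 / c ^ 5 - 4 / c ^ 3 - 49 / 64 / c =
      (54 - 4 * (v + 4) - 49 / 64 * (v + 4) ^ 2) / c ^ 5 := by
    rw [h6]
    field_simp
  have e2 : c / (c ^ 2 - 4) - 15 / 64 * (1 / c) =
      ((v + 4) ^ 3 - 15 / 64 * (v + 4) ^ 2 * v) / (c ^ 5 * v) := by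
    rw [← hv, h6]
    field_simp
  have hc5 : 0 < c ^ 5 := by positivity
  rw [e1, e2, abs_div, abs_of_pos hc5, div_le_div_iff₀ hc5 (by positivity)]
  have h7 : |54 - 4 * (v + 4) - 49 / 64 * (v + 4) ^ 2| * v ≤
      (v + 4) ^ 3 - 15 / 64 * (v + 4) ^ 2 * v := by
    have hn : 0 ≤ (v + 4) ^ 3 - 15 / 64 * (v + 4) ^ 2 * v := by
      have : 0 ≤ (v + 4) ^ 2 * (v + 4 - 15 / 64 * v) :=
        mul_nonneg (sq_nonneg _) (by linarith)
      linarith
    have h8 : |54 - 4 * (v + 4) - 49 / 64 * (v + 4) ^ 2| * v =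
        |(54 - 4 * (v + 4) - 49 / 64 * (v + 4) ^ 2) * v| := by
      rw [abs_mul, abs_of_pos hv0]
    rw [h8, abs_le]
    have h9 : 0 < v ^ 3 := by positivity
    have h10 : 0 < v ^ 2 := by positivity
    constructor
    · nlinarith
    · nlinarith
  calc |54 - 4 * (v + 4) - 49 / 64 * (v + 4) ^ 2| * (c ^ 5 * v)
      = (|54 - 4 * (v + 4) - 49 / 64 * (v + 4) ^ 2| * v) * c ^ 5 := by ring
      _ ≤ ((v + 4) ^ 3 - 15 / 64 * (v + 4) ^ 2 * v) * c ^ 5 :=
        mul_le_mul_of_nonneg_right h7 hc5.le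

/-- cross form of a regular kernel -/
theorem PP_form2 {m : ℝ} {q q' ℓ : ℝ → ℝ} (h : KerR m q q' ℓ) (hm : 0 < m) {K : ℝ → ℝ → ℝ}
    (hK : ∀ r s, K (Real.exp (-r)) (Real.exp (-s)) = Real.exp (-(m * (r + s))) * q (r - s))
    {a b : ℝ → ℝ} (ha : Bd a) (hb : Bd b) : FInt a b K ∧
    form a b K = ∫ τ, ℓ τ * corr (Am m a) (Am m b) τ := by
  have hA : Adm (Am m a) (Amd m a) := adm_Am ha hm
  have hB : Adm (Am m b) (Amd m b) := adm_Am hb hm
  have hc := NG_conv (m := m) (p := a) (q := b) (K := K) (k := fun r s => q (r - s))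
    (fun r s _ => hK r s)
  constructor
  · unfold FInt
    rw [integrableOn_th_iff, integrable_congr hc]
    exact h.integrable_prod hA hB
  · unfold form
    rw [integral_th, integral_congr_ae hc, h.formula hA hB]

/-- the cross lemma for an even function with integral zero -/
theorem cross_even {A A' B B' : ℝ → ℝ} (hA : Adm A A') (hB : Adm B B') {f : ℝ → ℝ}
    (hf : Integrable f) (he : ∀ τ, f (-τ) = f τ) (h0 : ∫ τ in Ioi (0:ℝ), f τ = 0) :
    Integrable (fun τ => f τ * corr A B τ) ∧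
    IntegrableOn (fun τ => |f τ| * DD A τ) (Ioi 0) ∧ IntegrableOn (fun τ => |f τ| * DD B τ) (Ioi 0) ∧
    2 * ∫ τ, f τ * corr A B τ ≤
      (∫ τ in Ioi (0:ℝ), |f τ| * DD A τ) + ∫ τ in Ioi (0:ℝ), |f τ| * DD B τ := by
  have hCc := NE_corr_continuous hA hB
  obtain ⟨K, hK⟩ := NE_corr_bdd hA hB
  have i2 := NE_integrable_mul hf hCc hK
  have i3 : Integrable (fun τ => f τ * corr A B (-τ)) :=
    NE_integrable_mul hf (hCc.comp continuous_neg) fun τ => hK (-τ)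
  have i4 : Integrable (fun τ => f τ * (2 * corr A B 0)) := hf.mul_const _
  have e1 : ∫ τ, f τ * corr A B τ =
      (∫ τ in Ioi (0:ℝ), f τ * corr A B (-τ)) + ∫ τ in Ioi (0:ℝ), f τ * corr A B τ := by
    rw [← intervalIntegral.integral_Iic_add_Ioi (b := (0:ℝ)) i2.integrableOn i2.integrableOn]
    congr 1
    have h := integral_comp_neg_Ioi (0:ℝ) (fun τ => f τ * corr A B τ)
    rw [neg_zero] at h
    rw [← h]
    refine setIntegral_congr_fun measurableSet_Ioi fun τ _ => ?_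
    simp only [he]
  have e2 : ∫ τ, f τ * corr A B τ =
      ∫ τ in Ioi (0:ℝ), f τ * (corr A B τ + corr A B (-τ) - 2 * corr A B 0) := by
    have h0' : ∫ τ in Ioi (0:ℝ), f τ * (2 * corr A B 0) = 0 := by
      rw [integral_mul_const, h0, zero_mul]
    have h5 : ∫ τ in Ioi (0:ℝ), f τ * (corr A B τ + corr A B (-τ) - 2 * corr A B 0) =
        ((∫ τ in Ioi (0:ℝ), f τ * corr A B (-τ)) + ∫ τ in Ioi (0:ℝ), f τ * corr A B τ) -
          ∫ τ in Ioi (0:ℝ), f τ * (2 * corr A B 0) := by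
      have h6 : IntegrableOn (fun τ => f τ * corr A B (-τ) + f τ * corr A B τ) (Ioi (0:ℝ)) :=
        i3.integrableOn.add i2.integrableOn
      rw [← integral_add i3.integrableOn i2.integrableOn, ← integral_sub h6 i4.integrableOn]
      refine setIntegral_congr_fun measurableSet_Ioi fun τ _ => ?_
      ring
    rw [h5, h0', sub_zero, e1]
  have iD : ∀ {A A' : ℝ → ℝ}, Adm A A' → IntegrableOn (fun τ => |f τ| * DD A τ) (Ioi 0) := by
    intro A A' hA
    have hCc := NE_corr_continuous hA hA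
    obtain ⟨K, hK⟩ := NE_corr_bdd hA hA
    have i1 : Integrable (fun τ => |f τ| * corr A A τ) := NE_integrable_mul hf.abs hCc hK
    have e : (fun τ => |f τ| * DD A τ) = fun τ => 2 * corr A A 0 * |f τ| - 2 * (|f τ| * corr A A τ) := by
      funext τ
      rw [DD_eq hA]
      ring
    rw [e]
    exact ((hf.abs.const_mul _).sub (i1.const_mul 2)).integrableOn
  have j1 := iD hA
  have j2 := iD hB
  refine ⟨i2, j1, j2, ?_⟩
  rw [← integral_add j1 j2, e2, ← integral_const_mul]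
  refine setIntegral_mono_on ?_ (j1.add j2) measurableSet_Ioi fun τ hτ => ?_
  · have : Integrable (fun τ => f τ * (corr A B τ + corr A B (-τ) - 2 * corr A B 0)) := by
      have h := (i2.add i3).sub i4
      refine h.congr (ae_of_all _ fun τ => ?_)
      simp only [Pi.add_apply, Pi.sub_apply]
      ring
    exact (this.const_mul 2).integrableOn
  · have h2 := corr_second_diff hA hB τ
    calc 2 * (f τ * (corr A B τ + corr A B (-τ) - 2 * corr A B 0))
        ≤ 2 * |f τ * (corr A B τ + corr A B (-τ) - 2 * corr A B 0)| := by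
          have := le_abs_self (f τ * (corr A B τ + corr A B (-τ) - 2 * corr A B 0))
          linarith
      _ = 2 * (|f τ| * |corr A B τ + corr A B (-τ) - 2 * corr A B 0|) := by rw [abs_mul]
      _ ≤ 2 * (|f τ| * ((DD A τ + DD B τ) / 2)) := by
          have := mul_le_mul_of_nonneg_left h2 (abs_nonneg (f τ))
          linarith
      _ = |f τ| * DD A τ + |f τ| * DD B τ := by ring

/-- one side of the lemma -/
theorem quad_one {a : ℝ → ℝ} (ha : Bd a) :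
    15 / 128 * Sur (3 / 2) a + ∫ τ in Ioi (0:ℝ), |f0 τ| * DD (Am (3 / 2) a) τ ≤ N3 a := by
  have hA : Adm (Am (3 / 2) a) (Amd (3 / 2) a) := adm_Am ha (by norm_num)
  obtain ⟨-, i1, e1⟩ := Sur_eq (m := 3 / 2) (by norm_num) ha
  obtain ⟨-, i2, -, -⟩ := cross_even hA hA f0_int f0_even f0_Ioi
  obtain ⟨i3, e3⟩ := PP_Lpp2 hA
  have i1' : IntegrableOn (fun τ => 15 / 64 * (1 / cc τ * DD (Am (3 / 2) a) τ)) (Ioi 0) :=
    i1.const_mul _
  have e : 15 / 128 * Sur (3 / 2) a = ∫ τ in Ioi (0:ℝ), 15 / 64 * (1 / cc τ * DD (Am (3 / 2) a) τ) := by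
    rw [e1, integral_const_mul]
    ring
  unfold N3
  rw [e, ← e3, ← integral_add i1' i2]
  refine setIntegral_mono_on (i1'.add i2) i3 measurableSet_Ioi fun τ hτ => ?_
  have h1 := abs_f0_le (ne_of_gt hτ)
  have h2 := DD_nonneg (Am (3 / 2) a) τ
  nlinarith

theorem quad {a b : ℝ → ℝ} (ha : Bd a) (hb : Bd b) : FInt a b r3k ∧
    15 / 128 * (Sur (3 / 2) a + Sur (3 / 2) b) ≤ N3 a + N3 b - 2 * form a b r3k := by
  have hA : Adm (Am (3 / 2) a) (Amd (3 / 2) a) := adm_Am ha (by norm_num)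
  have hB : Adm (Am (3 / 2) b) (Amd (3 / 2) b) := adm_Am hb (by norm_num)
  obtain ⟨f1, f2⟩ := PP_form2 kerR_q3 (by norm_num) r3k_exp ha hb
  refine ⟨f1, ?_⟩
  obtain ⟨i1, -, -, h1⟩ := cross_even hA hB f0_int f0_even f0_Ioi
  have hCc := NE_corr_continuous hA hB
  obtain ⟨K, hK⟩ := NE_corr_bdd hA hB
  have i0 : Integrable (fun τ => m3 τ * corr (Am (3 / 2) a) (Am (3 / 2) b) τ) :=
    NE_integrable_mul integrable_m3 hCc hK
  have h2 : ∫ τ, m3 τ * corr (Am (3 / 2) a) (Am (3 / 2) b) τ ≤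
      ∫ τ, f0 τ * corr (Am (3 / 2) a) (Am (3 / 2) b) τ := by
    refine integral_mono i0 i1 fun τ => ?_
    have h3 := NE_corr_nonneg (Am_nonneg ha (3 / 2)) (Am_nonneg hb (3 / 2)) τ
    have h4 : 0 < 1 / cc τ := div_pos one_pos (cc_pos τ)
    have h5 : m3 τ ≤ f0 τ := by
      rw [m3_f0]
      linarith
    exact mul_le_mul_of_nonneg_right h5 h3
  have q1 := quad_one ha
  have q2 := quad_one hb
  rw [f2]
  linarith

theorem inv_le_Lpp {τ : ℝ} (h : τ ≠ 0) : 1 / cc τ ≤ 2 * Lpp τ := by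
  have h1 := KE_sinh_pos h
  have h2 := cc_sinh_sq τ
  have h4 := cc_pos τ
  have h5 : 2 * Lpp τ = cc τ / (cc τ ^ 2 - 4) := KE_two_Lpp h
  rw [h5, div_le_div_iff₀ h4 (by rw [← h2]; positivity)]
  nlinarith

/-- general surplus bound -/
theorem sur_le {m : ℝ} (hm : 0 < m) {b : ℝ → ℝ} (hb : Bd b) :
    Sur m b ≤ 4 * ∫ τ in Ioi (0:ℝ), Lpp τ * DD (Am m b) τ := by
  have hA : Adm (Am m b) (Amd m b) := adm_Am hb hm
  obtain ⟨-, i1, e1⟩ := Sur_eq hm hb
  have i2 := integrableOn_Lpp_DD hA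
  have h : ∫ τ in Ioi (0:ℝ), 1 / cc τ * DD (Am m b) τ ≤ ∫ τ in Ioi (0:ℝ), 2 * (Lpp τ * DD (Am m b) τ) := by
    refine setIntegral_mono_on i1 (i2.const_mul 2) measurableSet_Ioi fun τ hτ => ?_
    have h1 := mul_le_mul_of_nonneg_right (inv_le_Lpp (ne_of_gt hτ)) (DD_nonneg (Am m b) τ)
    linarith
  rw [integral_const_mul] at h
  rw [e1]
  linarith

theorem sur3_le {b : ℝ → ℝ} (hb : Bd b) : Sur (3 / 2) b ≤ 2 * N3 b := by
  have h := sur_le (m := 3 / 2) (by norm_num) hb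
  unfold N3
  linarith

theorem sur1_le {b : ℝ → ℝ} (hb : Bd b) : Sur (1 / 2) b ≤ -(2 * form b b l1k) := by
  have h := sur_le (m := 1 / 2) (by norm_num) hb
  have hA : Adm (Am (1 / 2) b) (Amd (1 / 2) b) := adm_Am hb (by norm_num)
  have hl : form b b l1k = -2 * ∫ τ in Ioi (0:ℝ), Lpp τ * DD (Am (1 / 2) b) τ := by
    have hc := NG_conv (m := 1 / 2) (p := b) (q := b) (K := l1k) (k := fun r s => n1 |r - s|)
      (fun r s hrs => l1k_exp hrs)
    unfold form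
    rw [integral_th, integral_congr_ae hc, n1_kerN.diff_formula hA]
  rw [hl]
  linarith

/-- the kernel `r3k` in the tangent variables -/
theorem r3k_L0 {Y Z : ℝ} (hY : 0 < Y) (hZ : 0 < Z) :
    -(2 * r3k Y Z) = 2 * L0 (1 / Y) (1 / Z) + 2 * L0 (1 / Z) (1 / Y) - 9 / (1 / Y + 1 / Z) ^ 3 := by
  unfold r3k rl0 L0
  have e1 : (1 / Y) / (1 / Z) = Z / Y := by field_simp
  have e2 : (1 / Z) / (1 / Y) = Y / Z := by field_simp
  have hs : Y + Z ≠ 0 := by positivity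
  rw [e1, e2]
  have e3 : (1:ℝ) / Y + 1 / Z = (Y + Z) / (Y * Z) := by
    field_simp
    ring
  have e4 : (1:ℝ) / Z + 1 / Y = (Y + Z) / (Y * Z) := by
    field_simp
  rw [e3, e4]
  have hY' := hY.ne'
  have hZ' := hZ.ne'
  field_simp
  ring

end Pool.Agent.H44.DA
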