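import Pool.Agent.H44.DA.Quad
import Pool.Agent.H44.DA.K2

/-!
# Project DA (class (A)), static: pointwise kernel lemmas for the P targets (note 1995 of helper53)

`y = v + q > q` is the cotangent of the target, `y'` the coordinate of the charge,
`g0 q y y' = v (1+yy')/(y'-y) - (1+y²) log |y-y'|`, `d g0/dy' = (1+y²)(q-y')/(y-y')²`.
-/

set_option autoImplicit false
open Real Set MeasureTheory Filter Topology

namespace Pool.Agent.H44.DA
open Pool.Agent.H45.FL Pool.Agent.H51.DG Pool.Agent.H45.DY Pool.Agent.H90.DC Pool.Agent.H44.DE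

noncomputable def g0 (q y y' : ℝ) : ℝ :=
  (y - q) * (1 + y * y') / (y' - y) - (1 + y ^ 2) * Real.log (y - y')

/-- sign from the derivative -/
theorem nn_of_deriv {F F' : ℝ → ℝ} {z : ℝ} (hz : 0 ≤ z) (h0 : 0 ≤ F 0)
    (hd : ∀ t ∈ Icc 0 z, HasDerivAt F (F' t) t) (hp : ∀ t ∈ Icc 0 z, 0 ≤ F' t) : 0 ≤ F z := by
  have h : MonotoneOn F (Icc 0 z) := by
    refine monotoneOn_of_deriv_nonneg (convex_Icc 0 z)
      (fun t ht => (hd t ht).continuousAt.continuousWithinAt) ?_ ?_
    · intro t ht
      rw [interior_Icc] at ht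
      exact (hd t (Ioo_subset_Icc_self ht)).differentiableAt.differentiableWithinAt
    · intro t ht
      rw [interior_Icc] at ht
      rw [(hd t (Ioo_subset_Icc_self ht)).deriv]
      exact hp t (Ioo_subset_Icc_self ht)
  exact h0.trans (h (left_mem_Icc.2 hz) (right_mem_Icc.2 hz) hz)

/-- (a) near-near identity -/
theorem nearnear {q y y' : ℝ} (h : q < y) (h' : q < y') (hne : y ≠ y') :
    (y - q) * (g0 q y y' - g0 q y q) + (y' - q) * (g0 q y' y - g0 q y' q) =
      -(k3 (y - q) (y' - q) + 2 * q * k2 (y - q) (y' - q) + (1 + q ^ 2) * l1k (y - q) (y' - q)) := by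
  obtain ⟨v, hv⟩ : ∃ v, y = v + q := ⟨y - q, by ring⟩
  obtain ⟨w, hw⟩ : ∃ w, y' = w + q := ⟨y' - q, by ring⟩
  subst hv hw
  have hv0 : 0 < v := by linarith
  have hw0 : 0 < w := by linarith
  have hvw : v - w ≠ 0 := fun h => hne (by linarith)
  have hwv : w - v ≠ 0 := fun h => hne (by linarith)
  have e1 : 1 - w / v = (v - w) / v := by field_simp
  have e2 : 1 - v / w = (w - v) / w := by field_simp
  have e3 : Real.log (w - v) = Real.log (v - w) := by
    rw [← Real.log_neg_eq_log]
    congr 1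
    ring
  unfold g0 k3 k2 l1k
  rw [show v + q - q = v by ring, show w + q - q = w by ring, e1, e2, Real.log_div hvw hv0.ne',
    Real.log_div hwv hw0.ne', e3, show v + q - (w + q) = v - w by ring,
    show w + q - (v + q) = w - v by ring, show q - (v + q) = -v by ring,
    show q - (w + q) = -w by ring]
  have e4 : w - v = -(v - w) := by ring
  rw [e3, e4]
  generalize Real.log (v - w) = L
  generalize Real.log v = Lv
  generalize Real.log w = Lw
  generalize hD : v - w = D at hvw
  have hw' : w = v - D := by linarith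
  field_simp
  rw [hw']
  ring

/-- `-log (1-t) ≥ t + t²/2` -/
theorem log_two_terms {t : ℝ} (h0 : 0 ≤ t) (h1 : t < 1) : t + t ^ 2 / 2 ≤ -Real.log (1 - t) := by
  have h := Real.hasSum_pow_div_log_of_abs_lt_one (x := t) (by rw [abs_of_nonneg h0]; exact h1)
  have h2 := sum_le_hasSum (Finset.range 2) (fun n _ => by positivity) h
  simp only [Finset.sum_range_succ, Finset.sum_range_zero] at h2
  norm_num at h2
  linarith

theorem g0_q_sub {q y : ℝ} (hq : 0 ≤ q) (h : q < y) :
    g0 q y q - g0 q y 0 = (1 + y ^ 2) * (-Real.log (1 - q / y) - q / y) := by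
  have hy : 0 < y := by linarith
  have hv : 0 < y - q := by linarith
  have e1 : 1 - q / y = (y - q) / y := by field_simp
  unfold g0
  rw [e1, Real.log_div hv.ne' hy.ne']
  have e2 : q - y = -(y - q) := by ring
  have hv' := hv.ne'
  have hy' := hy.ne'
  rw [e2, sub_zero]
  generalize Real.log (y - q) = L
  field_simp
  ring

/-- (b) -/
theorem g0_q_ge {q y : ℝ} (hq : 0 ≤ q) (h : q < y) : q ^ 2 / 2 ≤ g0 q y q - g0 q y 0 := by
  have hy : 0 < y := by linarith
  rw [g0_q_sub hq h]
  have h1 := log_two_terms (t := q / y) (by positivity) ((div_lt_one hy).2 h)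
  have h2 : (1 + y ^ 2) * ((q / y) ^ 2 / 2) ≤ (1 + y ^ 2) * (-Real.log (1 - q / y) - q / y) :=
    mul_le_mul_of_nonneg_left (by linarith) (by positivity)
  refine le_trans ?_ h2
  have h3 : (1 + y ^ 2) * ((q / y) ^ 2 / 2) = q ^ 2 / 2 + (q / y) ^ 2 / 2 := by
    field_simp
    ring
  rw [h3]
  have : 0 ≤ (q / y) ^ 2 / 2 := by positivity
  linarith

/-- derivative in the position of the charge -/
theorem g0_d {q y t : ℝ} (h : t < y) :
    HasDerivAt (fun t => g0 q y t) ((1 + y ^ 2) * (q - t) / (y - t) ^ 2) t := by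
  have hy : y - t ≠ 0 := by linarith [h]
  have hy' : t - y ≠ 0 := by
    intro h1
    linarith
  have h1 : HasDerivAt (fun t : ℝ => (y - q) * (1 + y * t)) ((y - q) * y) t := by
    have := (((hasDerivAt_id t).const_mul y).const_add 1).const_mul (y - q)
    simpa using this
  have h2 : HasDerivAt (fun t : ℝ => t - y) 1 t := (hasDerivAt_id t).sub_const y
  have h3 : HasDerivAt (fun t : ℝ => y - t) (-1) t := by
    have := (hasDerivAt_id t).const_sub y
    simpa using this
  have h4 := (h1.div h2 hy').sub ((h3.log hy).const_mul (1 + y ^ 2))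
  unfold g0
  refine h4.congr_deriv ?_
  have e : t - y = -(y - t) := by ring
  rw [e]
  field_simp
  ring

/-- (c) N charge at `-z` -/
theorem g0_N {q y z : ℝ} (hq : 0 ≤ q) (h : q < y) (hz : 0 < z) :
    2 * L0 (1 / (y - q)) (1 / z) ≤ 2 * (y - q) * (g0 q y 0 - g0 q y (-z)) := by
  obtain ⟨v, hv⟩ : ∃ v, v = y - q := ⟨_, rfl⟩
  have hv0 : 0 < v := by linarith
  have hy : 0 < y := by linarith
  rw [← hv]
  have hL : L0 (1 / v) (1 / z) = v ^ 3 * (Real.log (1 + z / v) - z / (v + z)) := by
    unfold L0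
    have e1 : 1 / v / (1 / z) = z / v := by field_simp
    have e2 : 1 / v / (1 / v + 1 / z) = z / (v + z) := by
      have : v + z ≠ 0 := by positivity
      field_simp
      ring
    rw [e1, e2]
    field_simp
  have key : 0 ≤ (g0 q y 0 - g0 q y (-z)) - v ^ 2 * (Real.log (1 + z / v) - z / (v + z)) := by
    refine nn_of_deriv (F := fun t => (g0 q y 0 - g0 q y (-t)) -
      v ^ 2 * (Real.log (1 + t / v) - t / (v + t)))
      (F' := fun t => (1 + y ^ 2) * (q + t) / (y + t) ^ 2 - v ^ 2 * (t / (v + t) ^ 2)) hz.le ?_ ?_ ?_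
    · simp
    · intro t ht
      have ht0 := ht.1
      have hvt : v + t ≠ 0 := by positivity
      have h1 := (g0_d (q := q) (y := y) (t := -t) (by linarith)).comp t ((hasDerivAt_id t).neg)
      have h2 : HasDerivAt (fun t : ℝ => Real.log (1 + t / v)) (1 / v / (1 + t / v)) t := by
        have h3 : HasDerivAt (fun t : ℝ => 1 + t / v) (1 / v) t := by
          have := ((hasDerivAt_id t).div_const v).const_add 1
          simpa using this
        exact h3.log (by positivity)
      have h4 : HasDerivAt (fun t : ℝ => t / (v + t)) ((1 * (v + t) - t * 1) / (v + t) ^ 2) t := by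
        exact (hasDerivAt_id t).div ((hasDerivAt_id t).const_add v) hvt
      have h5 := (h1.const_sub (g0 q y 0)).sub ((h2.sub h4).const_mul (v ^ 2))
      refine h5.congr_deriv ?_
      have hyt : y + t ≠ 0 := by positivity
      have e : y - -t = y + t := by ring
      simp only [e]
      field_simp
      ring
    · intro t ht
      have ht0 := ht.1
      rw [sub_nonneg, ← mul_div_assoc, div_le_div_iff₀ (by positivity) (by positivity)]
      have h1 : v * (y + t) ≤ y * (v + t) := by nlinarith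
      have h2 : (v * (y + t)) ^ 2 ≤ (y * (v + t)) ^ 2 :=
        pow_le_pow_left₀ (by positivity) h1 2
      have h3 : v ^ 2 * t * (y + t) ^ 2 ≤ (y * (v + t)) ^ 2 * t := by
        have := mul_le_mul_of_nonneg_right h2 ht0
        nlinarith
      have h4 : (y * (v + t)) ^ 2 * t ≤ (1 + y ^ 2) * (q + t) * (v + t) ^ 2 := by
        have h5 : y ^ 2 * t ≤ (1 + y ^ 2) * (q + t) := by nlinarith [sq_nonneg y]
        have := mul_le_mul_of_nonneg_right h5 (sq_nonneg (v + t))
        nlinarith
      linarith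
  rw [hL]
  have := mul_nonneg hv0.le key
  nlinarith

/-- (d) right P charge outside the support -/
theorem g0_far {q y t : ℝ} (hq : 0 ≤ q) (h : q < y) (ht : 0 ≤ t) (htq : t ≤ q) :
    q * t - t ^ 2 / 2 ≤ g0 q y t - g0 q y 0 := by
  have hy : 0 < y := by linarith
  have key := nn_of_deriv (F := fun t => (g0 q y t - g0 q y 0) - (q * t - t ^ 2 / 2))
    (F' := fun t => (1 + y ^ 2) * (q - t) / (y - t) ^ 2 - (q - t)) ht (by simp) ?_ ?_
  · linarith
  · intro s hs
    have h1 := (g0_d (q := q) (y := y) (t := s) (by linarith [hs.2])).sub_const (g0 q y 0)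
    have h2 : HasDerivAt (fun t : ℝ => q * t - t ^ 2 / 2) (q - s) s := by
      have h3 := ((hasDerivAt_id s).const_mul q).sub (((hasDerivAt_id s).pow 2).div_const 2)
      refine h3.congr_deriv ?_
      simp
    exact h1.sub h2
  · intro s hs
    have h1 : 0 ≤ q - s := by linarith [hs.2]
    have h2 : 0 < y - s := by linarith [hs.2]
    rw [sub_nonneg, le_div_iff₀ (by positivity)]
    have h3 : (y - s) ^ 2 ≤ 1 + y ^ 2 := by nlinarith [hs.1]
    nlinarith

/-- (e) left P charge at `-t`, `0 ≤ t < ell` -/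
theorem g0_left {q y ell kap t : ℝ} (hq : 0 ≤ q) (h : q < y)
    (hk : ∀ s, 0 ≤ s → s < ell → (q + s) * (ell - s) ≤ kap) (ht : 0 ≤ t) (ht1 : t < ell) :
    -(t / y) ≤ (g0 q y (-t) - kap * Real.log (ell - t)) - (g0 q y 0 - kap * Real.log ell) := by
  have hy : 0 < y := by linarith
  have key := nn_of_deriv (F := fun t => (g0 q y (-t) - kap * Real.log (ell - t)) -
      (g0 q y 0 - kap * Real.log ell) + t / y)
    (F' := fun t => -((1 + y ^ 2) * (q + t) / (y + t) ^ 2) + kap / (ell - t) + 1 / y) ht (by simp) ?_ ?_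
  · linarith
  · intro s hs
    have hs1 : 0 < ell - s := by linarith [hs.2]
    have h1 := (g0_d (q := q) (y := y) (t := -s) (by linarith [hs.1])).comp s ((hasDerivAt_id s).neg)
    have h2 : HasDerivAt (fun t : ℝ => Real.log (ell - t)) (-1 / (ell - s)) s := by
      have h3 : HasDerivAt (fun t : ℝ => ell - t) (-1) s := by
        have := (hasDerivAt_id s).const_sub ell
        simpa using this
      exact h3.log hs1.ne'
    have h4 := (((h1.sub (h2.const_mul kap)).sub_const (g0 q y 0 - kap * Real.log ell)).add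
      ((hasDerivAt_id s).div_const y))
    refine h4.congr_deriv ?_
    have e : y - -s = y + s := by ring
    simp only [e]
    ring
  · intro s hs
    have hs0 := hs.1
    have hs1 : 0 < ell - s := by linarith [hs.2]
    have h1 : q + s ≤ kap / (ell - s) := by
      rw [le_div_iff₀ hs1]
      exact hk s hs0 (by linarith)
    have h2 : (1 + y ^ 2) * (q + s) / (y + s) ^ 2 ≤ (q + s) + 1 / y := by
      rw [div_le_iff₀ (by positivity)]
      have h3 : (q + s) * (1 + y ^ 2) ≤ (q + s) * (y + s) ^ 2 + (q + s) := by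
        have : y ^ 2 ≤ (y + s) ^ 2 := by nlinarith
        nlinarith
      have h4 : q + s ≤ 1 / y * (y + s) ^ 2 := by
        rw [one_div, inv_mul_eq_div, le_div_iff₀ hy]
        nlinarith
      nlinarith
    linarith

/-- (f) the universal term -/
theorem univ_ge {q y c : ℝ} (hq : 0 ≤ q) (h : q < y) {kap ell s : ℝ} (hk : 0 ≤ kap)
    (hc : ell * s = c) (hl : 0 < ell) (hs : 0 < s) (hc1 : c ≤ 1) :
    -(1 / 2) ≤ (g0 q y 0 - kap * Real.log ell) +
      (1 / 2 * (1 + y ^ 2) * Real.log (1 + y ^ 2) - kap * Real.log s) := by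
  have hy : 0 < y := by linarith
  have hlog : Real.log ell + Real.log s ≤ 0 := by
    rw [← Real.log_mul hl.ne' hs.ne', hc]
    exact Real.log_nonpos (by rw [← hc]; positivity) hc1
  have h1 : 1 / (1 + y ^ 2) ≤ Real.log (1 + y ^ 2) - 2 * Real.log y := by
    have e : Real.log (1 + y ^ 2) - 2 * Real.log y = Real.log ((1 + y ^ 2) / y ^ 2) := by
      rw [Real.log_div (by positivity) (by positivity), Real.log_pow]
      push_cast
      ring
    rw [e]
    have h2 := Real.one_sub_inv_le_log_of_pos (show 0 < (1 + y ^ 2) / y ^ 2 by positivity)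
    have h3 : 1 - ((1 + y ^ 2) / y ^ 2)⁻¹ = 1 / (1 + y ^ 2) := by
      field_simp
      ring
    rw [h3] at h2
    exact h2
  have h2 : 1 / 2 ≤ 1 / 2 * (1 + y ^ 2) * (Real.log (1 + y ^ 2) - 2 * Real.log y) := by
    have h3 := mul_le_mul_of_nonneg_left h1 (show 0 ≤ 1 / 2 * (1 + y ^ 2) by positivity)
    have h4 : 1 / 2 * (1 + y ^ 2) * (1 / (1 + y ^ 2)) = 1 / 2 := by field_simp
    linarith
  have h5 : g0 q y 0 = -((y - q) / y) - (1 + y ^ 2) * Real.log y := by
    unfold g0
    rw [sub_zero, mul_zero, add_zero, mul_one, zero_sub, div_neg]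
  have h6 : (y - q) / y ≤ 1 := by
    rw [div_le_one hy]
    linarith
  have h7 := mul_nonneg hk (show 0 ≤ -(Real.log ell + Real.log s) by linarith)
  rw [h5]
  nlinarith

end Pool.Agent.H44.DA
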