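import Pool.Agent.H53.DA.LongA
import Pool.Agent.H53.DA.UUe
import Pool.Agent.H53.DA.Bud

/-!
# DA static: the assembly for `l < π` (second version of H53/DA/ShortA, helper44)
-/

set_option autoImplicit false
open Real Set MeasureTheory Filter Topology

namespace Pool.Agent.H53.DA
open Pool.Agent.H45.FL Pool.Agent.H51.DG Pool.Agent.H45.DY Pool.Agent.H90.DC Pool.Agent.H90.DA

theorem ShX_ct {l : ℝ} (hl0 : 0 < l) (hl : l < π) : 0 < ct l := ct_pos hl0 hl

/-- signs of the parts for `l < π`, `x ∈ (0,π)` -/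
theorem ShX_parts {f : ℝ → ℝ} {l : ℝ} (h : TwoA f l) (hl : l < π) {x : ℝ} (hx : x ∈ Ioo (0:ℝ) π) :
    0 ≤ f x ∧ bF f x = f x ∧ bR f x = 0 ∧ (x ≤ l → aL f x = 0) ∧ (l ≤ x → bC f x = 0) ∧
    f (-x) = aL f x - bC f x := by
  have hπ := Real.pi_pos
  have h1 : 0 ≤ f x := h.pos x ⟨hx.1.le, by linarith [hx.2]⟩
  refine ⟨h1, max_eq_left h1, max_eq_right (by linarith), fun h2 => ?_, fun h2 => ?_, ?_⟩
  · exact max_eq_right (h.neg (-x) ⟨by linarith, by linarith [hx.1]⟩)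
  · have h3 : 0 ≤ f (-x) := by
      have h4 := h.pos (-x + 2 * π) ⟨by linarith [hx.2], by linarith⟩
      rwa [h.per (-x)] at h4
    exact max_eq_right (by linarith)
  · show f (-x) = max (f (-x)) 0 - max (-f (-x)) 0
    exact Tr_self _

theorem ShX_G1 {q y y' L α1 α2 kp ell : ℝ} (h02 : 0 ≤ α2)
    (h1 : ∀ y y' : ℝ, q < y → q < y' →
      -(α1 * (y' - q)) - α2 ≤ gg q y q - kp * Real.log (1 + y' / ell))
    (h2 : ∀ y y' : ℝ, q < y → 0 < y' → y' ≤ q →
      -α2 ≤ gg q y y' - kp * Real.log (1 + y' / ell)) (hy' : 0 < y')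
    (hL : L = Real.log (1 + y' / ell)) :
    -(2 * α1 * (max (y - q) 0 * max (y' - q) 0)) - 2 * α2 * max (y - q) 0 ≤
      2 * max (y - q) 0 * (gg q y (min y' q) - kp * L) := by
  rcases le_or_gt y q with h | h
  · rw [max_eq_right (by linarith : y - q ≤ 0)]
    simp
  · rw [max_eq_left (by linarith : 0 ≤ y - q), hL]
    have hv : 0 ≤ 2 * (y - q) := by linarith
    rcases le_or_gt y' q with h' | h'
    · rw [max_eq_right (by linarith : y' - q ≤ 0), min_eq_left h']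
      have := mul_le_mul_of_nonneg_left (h2 y y' h hy' h') hv
      linarith
    · rw [max_eq_left (by linarith : 0 ≤ y' - q), min_eq_right h'.le]
      have := mul_le_mul_of_nonneg_left (h1 y y' h h') hv
      linarith

theorem ShX_pt {q ell kp α1 α2 α3 α4 α6 α7 : ℝ} {f : ℝ → ℝ} {l : ℝ} (h : TwoA f l) (hl : l < π)
    (hq : 0 ≤ q) (hell : ell = ct l)
    (h0 : 0 ≤ α1 ∧ 0 ≤ α2 ∧ 0 ≤ α3 ∧ 0 ≤ α4 ∧ 0 ≤ α6 ∧ 0 ≤ α7)
    (h1 : ∀ y y' : ℝ, q < y → q < y' →
      -(α1 * (y' - q)) - α2 ≤ gg q y q - kp * Real.log (1 + y' / ell))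
    (h2 : ∀ y y' : ℝ, q < y → 0 < y' → y' ≤ q →
      -α2 ≤ gg q y y' - kp * Real.log (1 + y' / ell))
    (h3 : ∀ y t : ℝ, q < y → 0 < t → t < ell →
      -(α3 * (y - q)) - α4 ≤ (y - q) * (gg q y (-t) - kp * Real.log (1 - t / ell)))
    (h6 : ∀ y z : ℝ, 0 < y → y < 60 * q → ell < z → 17 / 2 * chp y z ^ 3 ≤
      α6 + α7 * (ell * max ((y * ell - 1) / (y + ell)) 0 ^ 2))
    {x η : ℝ} (hx : x ∈ Ioo (0:ℝ) π) (hη : η ∈ Ioo (0:ℝ) π) :
    -(2 * (if q < ct x ∧ 0 < ct η then bF f x * bC f η * r3k (ct x - q) (ct η - 0) else 0))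
      - 2 * α1 * ((bF f x * vq q x) * (bF f η * vq q η))
      - 2 * α2 * ((bF f x * vq q x) * bF f η)
      - 2 * α3 * ((bF f x * vq q x) * aL f η) - 2 * α4 * (bF f x * aL f η)
      - α6 * (bF f x * bC f η)
      - α7 * (bF f x * bC f η * (ell * max ((ct x * ell - 1) / (ct x + ell)) 0 ^ 2)) ≤
      bR (fun x => -f x) x * (2 * vq q x) * src q (fun x => -f x) (ct x) η +
        bR (fun x => f (-x)) η * (2 * vq 0 η) * src 0 (fun x => f (-x)) (ct η) x -
        17 / 2 * (bF f x * bC f η * chp (ct x) (ct η) ^ 3) -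
        2 * kp * ((bF f x * vq q x) * (bF f η * Real.log (1 + ct η / ell))) -
        2 * kp * ((bF f x * vq q x) * (aL f η * Real.log (1 - ct η / ell))) := by
  obtain ⟨a1, a2, a3, a4, a6, a7⟩ := h0
  have hπ := Real.pi_pos
  have hl0 := h.l0
  have hy : 0 < ct x := ct_pos hx.1 hx.2
  have hz : 0 < ct η := ct_pos hη.1 hη.2
  have hell0 : 0 < ell := by rw [hell]; exact ct_pos hl0 hl
  obtain ⟨fx, px1, px2, px3, px4, px5⟩ := ShX_parts h hl hx
  obtain ⟨fη, pη1, pη2, pη3, pη4, pη5⟩ := ShX_parts h hl hη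
  have ha0 : 0 ≤ bF f x := le_max_right _ _
  have ha0' : 0 ≤ bF f η := le_max_right _ _
  have hc0 : 0 ≤ aL f η := le_max_right _ _
  have hc0' : 0 ≤ aL f x := le_max_right _ _
  have hb0 : 0 ≤ bC f η := le_max_right _ _
  have hv : vq q x = max (ct x - q) 0 := rfl
  have hv' : vq q η = max (ct η - q) 0 := rfl
  have hv0 : 0 ≤ max (ct x - q) 0 := le_max_right _ _
  have v2 : vq 0 η = ct η := by
    unfold vq
    rw [sub_zero]
    exact max_eq_left hz.le
  have e1 : bR (fun x => -f x) x = bF f x := by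
    show max (- -f x) 0 = max (f x) 0
    rw [neg_neg]
  have e1' : bR (fun x => -f x) η = bF f η := by
    show max (- -f η) 0 = max (f η) 0
    rw [neg_neg]
  have e2 : bR (fun x => f (-x)) η = bC f η := rfl
  have s1 : src q (fun x => -f x) (ct x) η =
      bF f η * gg q (ct x) (min (ct η) q) + (aL f η - bC f η) * gg q (ct x) (-ct η) := by
    unfold src
    rw [e1', ← pη5]
    have e3 : bF (fun x => -f x) η = 0 := max_eq_right (by linarith)
    rw [e3]
    ring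
  have s2 : src 0 (fun x => f (-x)) (ct η) x =
      -(aL f x * gg 0 (ct η) (ct x)) - bF f x * gg 0 (ct η) (-ct x) := by
    have e4 : (fun x => f (-x)) (-x) = bF f x := by
      rw [px1]
      show f (- -x) = f x
      rw [neg_neg]
    have e5 : bF (fun x => f (-x)) x = aL f x := rfl
    unfold src
    rw [min_eq_right hy.le, gg_zero, e4, e5]
    ring
  have k1 := gg_gk hy hz
  rw [e1, e2, s1, s2, v2, hv, hv']
  -- P on P, near and far
  have G1 := mul_le_mul_of_nonneg_left (ShX_G1 (y := ct x) a2 h1 h2 hz rfl)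
    (mul_nonneg ha0 ha0')
  -- P left on P
  have G2 : -(2 * α3 * (max (ct x - q) 0)) * aL f η - 2 * α4 * aL f η ≤
      2 * max (ct x - q) 0 * (gg q (ct x) (-ct η) - kp * Real.log (1 - ct η / ell)) * aL f η := by
    rcases le_or_gt η l with hηl | hηl
    · rw [pη3 hηl]
      simp
    · have ht : ct η < ell := by
        rw [hell]
        exact ct_lt hl0 hηl (by linarith [hη.2])
      have key : -(2 * α3 * (max (ct x - q) 0)) - 2 * α4 ≤
          2 * max (ct x - q) 0 * (gg q (ct x) (-ct η) - kp * Real.log (1 - ct η / ell)) := by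
        rcases le_or_gt (ct x) q with h' | h'
        · rw [max_eq_right (by linarith : ct x - q ≤ 0)]
          linarith
        · rw [max_eq_left (by linarith : 0 ≤ ct x - q)]
          have := h3 (ct x) (ct η) h' hz ht
          linarith
      have := mul_le_mul_of_nonneg_right key hc0
      linarith
  have G2' := mul_le_mul_of_nonneg_left G2 ha0
  -- N on P, P on N, energy
  have G3 : -(2 * (if q < ct x ∧ 0 < ct η then bF f x * bC f η * r3k (ct x - q) (ct η - 0) else 0))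
      - α6 * (bF f x * bC f η)
      - α7 * (bF f x * bC f η * (ell * max ((ct x * ell - 1) / (ct x + ell)) 0 ^ 2)) ≤
      bF f x * bC f η * (-(2 * max (ct x - q) 0 * gg q (ct x) (-ct η)) + 2 * gk (ct x) (ct η) -
        17 / 2 * chp (ct x) (ct η) ^ 3) := by
    rcases le_or_gt l η with hηl | hηl
    · rw [pη4 hηl]
      simp
    · have ht : ell < ct η := by
        rw [hell]
        exact ct_lt hη.1 hηl (by linarith)
      have c1 := cross_ge hq hy hz
      have c2 : (if ct x < 60 * q then 17 / 2 * chp (ct x) (ct η) ^ 3 else 0) ≤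
          α6 + α7 * (ell * max ((ct x * ell - 1) / (ct x + ell)) 0 ^ 2) := by
        split_ifs with h7
        · exact h6 _ _ hy h7 ht
        · positivity
      have c3 := mul_le_mul_of_nonneg_left c1 (mul_nonneg ha0 hb0)
      have c4 := mul_le_mul_of_nonneg_left c2 (mul_nonneg ha0 hb0)
      have c5 : (if q < ct x ∧ 0 < ct η then bF f x * bC f η * r3k (ct x - q) (ct η - 0) else 0) * 2 =
          -(bF f x * bC f η * (if q < ct x then -(2 * r3k (ct x - q) (ct η)) else 0)) := by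
        by_cases h8 : q < ct x
        · rw [if_pos ⟨h8, hz⟩, if_pos h8, sub_zero]
          ring
        · rw [if_neg (fun h9 => h8 h9.1), if_neg h8]
          ring
      linarith
  -- P left on N
  have G4 : 0 ≤ -(bC f η * (2 * ct η) * (aL f x * gg 0 (ct η) (ct x))) := by
    rcases le_or_gt x l with hxl | hxl
    · rw [px3 hxl]
      simp
    · rcases le_or_gt l η with hηl | hηl
      · rw [pη4 hηl]
        simp
      · have h9 : ct x < ct η := ct_lt hη.1 (hηl.trans hxl) (by linarith [hx.2])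
        have h10 := gg_in hy h9
        have h11 : 0 ≤ bC f η * (2 * ct η) * aL f x := by positivity
        have := mul_nonneg h11 (neg_nonneg.2 h10)
        linarith
  have G5 : bC f η * (2 * ct η) * (bF f x * gg 0 (ct η) (-ct x)) =
      -(bF f x * bC f η * (2 * gk (ct x) (ct η))) := by
    rw [← k1]
    ring
  have A : bF f x * (2 * max (ct x - q) 0) *
        (bF f η * gg q (ct x) (min (ct η) q) + (aL f η - bC f η) * gg q (ct x) (-ct η)) +
      bC f η * (2 * ct η) * (-(aL f x * gg 0 (ct η) (ct x)) - bF f x * gg 0 (ct η) (-ct x)) =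
      bF f x * bF f η * (2 * max (ct x - q) 0 * gg q (ct x) (min (ct η) q)) +
      bF f x * (2 * max (ct x - q) 0 * gg q (ct x) (-ct η) * aL f η) +
      bF f x * bC f η * (-(2 * max (ct x - q) 0 * gg q (ct x) (-ct η)) + 2 * gk (ct x) (ct η)) +
      -(bC f η * (2 * ct η) * (aL f x * gg 0 (ct η) (ct x))) := by
    have := G5
    linear_combination -this
  rw [A]
  linarith


theorem ShX_sub {μ : Measure (ℝ × ℝ)} {g h : ℝ × ℝ → ℝ} {I J : ℝ}
    (hg : Integrable g μ ∧ ∫ z, g z ∂μ = I) (hh : Integrable h μ ∧ ∫ z, h z ∂μ = J) (c : ℝ) :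
    Integrable (fun z => g z - c * h z) μ ∧ ∫ z, (g z - c * h z) ∂μ = I - c * J := by
  refine ⟨hg.1.sub (hh.1.const_mul c), ?_⟩
  rw [integral_sub hg.1 (hh.1.const_mul c), integral_const_mul, hg.2, hh.2]

theorem ShX_add {μ : Measure (ℝ × ℝ)} {g h : ℝ × ℝ → ℝ} {I J : ℝ}
    (hg : Integrable g μ ∧ ∫ z, g z ∂μ = I) (hh : Integrable h μ ∧ ∫ z, h z ∂μ = J) :
    Integrable (fun z => g z + h z) μ ∧ ∫ z, (g z + h z) ∂μ = I + J := by
  refine ⟨hg.1.add hh.1, ?_⟩
  rw [integral_add hg.1 hh.1, hg.2, hh.2]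

theorem ShX_neg {μ : Measure (ℝ × ℝ)} {g : ℝ × ℝ → ℝ} {I : ℝ}
    (hg : Integrable g μ ∧ ∫ z, g z ∂μ = I) (c : ℝ) :
    Integrable (fun z => -(c * g z)) μ ∧ ∫ z, -(c * g z) ∂μ = -(c * I) := by
  refine ⟨(hg.1.const_mul c).neg, ?_⟩
  rw [integral_neg, integral_const_mul, hg.2]

/-- own form, with the degree one surplus -/
theorem ShX_form {a : ℝ → ℝ} (ha : Bd a) {q : ℝ} (hq : 0 ≤ q) :
    N3 a + q ^ 2 * Su1 a / 4 ≤ -form a a (kQ q) := by
  obtain ⟨i3, e3⟩ := form_k3 ha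
  obtain ⟨i2, e2⟩ := form_k2 ha
  obtain ⟨i1, e1⟩ := form_l1k_su ha
  have hs := (N3_su ha).2.1
  have h : form a a (kQ q) = form a a k3 + 2 * q * form a a k2 + (1 + q ^ 2) * form a a l1k := by
    have j2 : Integrable (fun z : ℝ × ℝ => 2 * q * (a z.1 * a z.2 * k2 (ct z.1) (ct z.2)))
      (volume.restrict (Ioo (0:ℝ) π ×ˢ Ioo (0:ℝ) π)) := Integrable.const_mul i2 _
    have j1 : Integrable (fun z : ℝ × ℝ => (1 + q ^ 2) * (a z.1 * a z.2 * l1k (ct z.1) (ct z.2)))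
      (volume.restrict (Ioo (0:ℝ) π ×ˢ Ioo (0:ℝ) π)) := Integrable.const_mul i1 _
    have j3 : Integrable (fun z : ℝ × ℝ => a z.1 * a z.2 * k3 (ct z.1) (ct z.2))
      (volume.restrict (Ioo (0:ℝ) π ×ˢ Ioo (0:ℝ) π)) := i3
    have j4 : Integrable (fun z : ℝ × ℝ => a z.1 * a z.2 * k3 (ct z.1) (ct z.2) +
      2 * q * (a z.1 * a z.2 * k2 (ct z.1) (ct z.2)))
      (volume.restrict (Ioo (0:ℝ) π ×ˢ Ioo (0:ℝ) π)) := j3.add j2
    unfold form
    rw [← integral_const_mul, ← integral_const_mul, ← integral_add j3 j2, ← integral_add j4 j1]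
    refine integral_congr_ae (Eventually.of_forall fun z => ?_)
    show a z.1 * a z.2 * kQ q (ct z.1) (ct z.2) =
      a z.1 * a z.2 * k3 (ct z.1) (ct z.2) + 2 * q * (a z.1 * a z.2 * k2 (ct z.1) (ct z.2)) +
        (1 + q ^ 2) * (a z.1 * a z.2 * l1k (ct z.1) (ct z.2))
    unfold kQ
    ring
  rw [h, e3]
  have h1 : 2 * q * form a a k2 ≤ 0 := mul_nonpos_of_nonneg_of_nonpos (by linarith) e2
  have h2 := mul_le_mul_of_nonneg_left e1 (show 0 ≤ 1 + q ^ 2 by positivity)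
  nlinarith

theorem ShX_vq_int {b : ℝ → ℝ} (hb : Bd b) {q : ℝ} (hq : 0 ≤ q) :
    IntegrableOn (fun x => b x * vq q x) (Ioo (0:ℝ) π) := by
  refine LongA_int hb (F := fun y => max (y - q) 0) (by fun_prop) fun M => ⟨M, fun y hy hyM => ?_⟩
  rw [abs_of_nonneg (le_max_right _ _)]
  exact max_le (by linarith) (by linarith)

theorem ShX_hh {b : ℝ → ℝ} (hb : Bd b) {q : ℝ} (hq : 0 ≤ q) :
    -(∫ x in (0:ℝ)..π, b x * vq q x) ≤ ∫ x in (0:ℝ)..π, b x * (2 * vq q x) * hh q (ct x) := by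
  have hF : ∀ M : ℝ, ∃ C : ℝ, ∀ y : ℝ, 0 < y → y ≤ M → |2 * max (y - q) 0 * hh q y| ≤ C := by
    intro M
    refine ⟨|M| + 2 + 2 * q, fun y hy hyM => ?_⟩
    have hM : M ≤ |M| := le_abs_self M
    rcases le_or_gt y q with h | h
    · rw [max_eq_right (by linarith : y - q ≤ 0)]
      simp only [mul_zero, zero_mul, abs_zero]
      positivity
    · rw [max_eq_left (by linarith : 0 ≤ y - q)]
      have h1 := hh_ge hq h
      have h2 := hh_le hy
      have h3 : hh q y = hh 0 y + q / y := by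
        unfold hh
        have := hy.ne'
        field_simp
        ring
      have h4 : 0 ≤ q / y := by positivity
      have h5 : y * hh q y ≤ 1 + q := by
        rw [h3, mul_add, mul_div_cancel₀ _ hy.ne']
        linarith
      rw [abs_le]
      constructor
      · have := mul_le_mul_of_nonneg_left h1 (show 0 ≤ 2 * (y - q) by linarith)
        linarith
      · rcases le_or_gt (hh q y) 0 with h6 | h6
        · have := mul_nonpos_of_nonneg_of_nonpos (show 0 ≤ 2 * (y - q) by linarith) h6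
          have h7 := abs_nonneg M
          linarith
        · have h7 : 2 * (y - q) * hh q y ≤ 2 * (y * hh q y) := by nlinarith
          have h8 := abs_nonneg M
          linarith
  have hi := LongA_int hb (F := fun y => 2 * max (y - q) 0 * hh q y) (by unfold hh; fun_prop) hF
  have hj := ShX_vq_int hb hq
  rw [intervalIntegral.integral_of_le Real.pi_pos.le, integral_Ioc_eq_integral_Ioo,
    intervalIntegral.integral_of_le Real.pi_pos.le, integral_Ioc_eq_integral_Ioo,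
    ← integral_neg]
  have e : ∀ x, b x * (2 * vq q x) * hh q (ct x) = b x * (2 * max (ct x - q) 0 * hh q (ct x)) := by
    intro x
    unfold vq
    ring
  simp only [e]
  refine setIntegral_mono_on hj.neg hi measurableSet_Ioo fun x hx => ?_
  have hb0 := hb.nn x ⟨hx.1.le, hx.2.le⟩
  show -(b x * max (ct x - q) 0) ≤ _
  rcases le_or_gt (ct x) q with h | h
  · rw [max_eq_right (by linarith : ct x - q ≤ 0)]
    simp
  · rw [max_eq_left (by linarith : 0 ≤ ct x - q)]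
    have h1 := mul_le_mul_of_nonneg_left (hh_ge hq h) (show 0 ≤ 2 * (ct x - q) by linarith)
    have h2 := mul_le_mul_of_nonneg_left h1 hb0
    linarith

theorem ShX_tail {f : ℝ → ℝ} {l q : ℝ} (h : TwoA f l) (hl : l < π) (hq : 0 ≤ q) :
    ∫ x in (0:ℝ)..(2 * π - l), f x * max (ct x - q) 0 = ∫ x in (0:ℝ)..π, bF f x * vq q x := by
  have hπ := Real.pi_pos
  rw [intervalIntegral.integral_of_le (by linarith), intervalIntegral.integral_of_le hπ.le]
  have e : ∫ x in Ioc (0:ℝ) (2 * π - l), f x * max (ct x - q) 0 =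
      ∫ x in Ioc (0:ℝ) π, f x * max (ct x - q) 0 := by
    refine setIntegral_eq_of_subset_of_forall_diff_eq_zero measurableSet_Ioc
      (Ioc_subset_Ioc_right (by linarith)) fun x hx => ?_
    have h1 : π < x := by
      by_contra h2
      exact hx.2 ⟨hx.1.1, not_lt.1 h2⟩
    have h2 : ct x ≤ 0 := by
      unfold ct
      refine div_nonpos_of_nonpos_of_nonneg ?_ ?_
      · refine Real.cos_nonpos_of_pi_div_two_le_of_le (by linarith) ?_
        linarith [hx.1.2, h.l0]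
      · exact (SEv_sin (by linarith) (by linarith [hx.1.2, h.l0])).le
    rw [max_eq_right (by linarith), mul_zero]
  rw [e]
  refine setIntegral_congr_fun measurableSet_Ioc fun x hx => ?_
  have h1 : 0 ≤ f x := h.pos x ⟨hx.1.le, by linarith [hx.2]⟩
  show f x * max (ct x - q) 0 = max (f x) 0 * max (ct x - q) 0
  rw [max_eq_left h1]

/-- the arc N near `e` seen from `c` -/
theorem ShX_be {f : ℝ → ℝ} {l : ℝ} (h : VanA f l) (hl : l < π) :
    IntegrableOn (fun x => bC f x * ((1 + ct x * ct l) / (ct x - ct l))) (Ioc (0:ℝ) π) ∧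
    ∫ x in Ioc (0:ℝ) π, bC f x * ((1 + ct x * ct l) / (ct x - ct l)) = vs (bE f l) := by
  have hπ := Real.pi_pos
  have hl0 := h.l0
  have hT : TwoA f l := h.toTwoA
  obtain ⟨-, -, bb, -, be⟩ := bd_parts h
  have hbC : ∀ x, l ≤ x → x ≤ π → bC f x = 0 := by
    intro x h1 h2
    have h3 : 0 ≤ f (-x) := by
      have h4 := hT.pos (-x + 2 * π) ⟨by linarith, by linarith⟩
      rwa [hT.per (-x)] at h4
    exact max_eq_right (by linarith)
  have hbE : ∀ x, l ≤ x → x ≤ π → bE f l x = 0 := by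
    intro x h1 h2
    have h3 := hT.pos (x - l) ⟨by linarith, by linarith⟩
    exact max_eq_right (by linarith)
  have e1 : vs (bE f l) = ∫ x in (0:ℝ)..l, bE f l x * ct x := by
    unfold vs
    rw [intervalIntegral.integral_of_le hπ.le, intervalIntegral.integral_of_le hl0.le]
    refine setIntegral_eq_of_subset_of_forall_diff_eq_zero measurableSet_Ioc
      (Ioc_subset_Ioc_right hl.le) fun x hx => ?_
    have h1 : l < x := by
      by_contra h2
      exact hx.2 ⟨hx.1.1, not_lt.1 h2⟩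
    rw [hbE x h1.le hx.1.2, zero_mul]
  have i1 : IntervalIntegrable (fun x => bE f l x * ct x) volume 0 l := by
    rw [intervalIntegrable_iff_integrableOn_Ioo_of_le hl0.le]
    exact (LongA_vs_int be).mono_set (Ioo_subset_Ioo_right hl.le)
  have i2 : IntervalIntegrable (fun x => bE f l (l - x) * ct (l - x)) volume 0 l := by
    have := i1.comp_sub_left l
    rw [sub_zero, sub_self] at this
    exact this.symm
  have e2 : ∫ x in (0:ℝ)..l, bE f l x * ct x = ∫ x in (0:ℝ)..l, bE f l (l - x) * ct (l - x) := by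
    rw [intervalIntegral.integral_comp_sub_left (fun x => bE f l x * ct x) l, sub_self, sub_zero]
  have key : ∀ x ∈ Ioo (0:ℝ) l, bE f l (l - x) * ct (l - x) =
      bC f x * ((1 + ct x * ct l) / (ct x - ct l)) := by
    intro x hx
    have s1 := SEv_sin hl0 (by linarith)
    have s2 := SEv_sin hx.1 (by linarith [hx.2])
    rw [SEv_ct_sub s1.ne' s2.ne']
    have : bE f l (l - x) = bC f x := by
      unfold bE bC
      rw [show l - x - l = -x by ring]
    rw [this, mul_comm (ct l) (ct x)]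
  have i3 : IntegrableOn (fun x => bC f x * ((1 + ct x * ct l) / (ct x - ct l))) (Ioo (0:ℝ) l) := by
    rw [intervalIntegrable_iff_integrableOn_Ioo_of_le hl0.le] at i2
    exact i2.congr_fun key measurableSet_Ioo
  have i4 : IntegrableOn (fun x => bC f x * ((1 + ct x * ct l) / (ct x - ct l))) (Ioc (0:ℝ) l) :=
    (integrableOn_Ioc_iff_integrableOn_Ioo (by finiteness)).2 i3
  have i5 : IntegrableOn (fun x => bC f x * ((1 + ct x * ct l) / (ct x - ct l))) (Ioc l π) := by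
    refine (integrableOn_zero (ε' := ℝ)).congr_fun (fun x hx => ?_) measurableSet_Ioc
    show (0:ℝ) = _
    rw [hbC x hx.1.le hx.2, zero_mul]
  constructor
  · rw [← Ioc_union_Ioc_eq_Ioc hl0.le hl.le]
    exact i4.union i5
  · have e3 : ∫ x in Ioc (0:ℝ) l, bE f l (l - x) * ct (l - x) =
        ∫ x in Ioc (0:ℝ) l, bC f x * ((1 + ct x * ct l) / (ct x - ct l)) := by
      rw [integral_Ioc_eq_integral_Ioo, integral_Ioc_eq_integral_Ioo]
      exact setIntegral_congr_fun measurableSet_Ioo key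
    rw [e1, e2, intervalIntegral.integral_of_le hl0.le, e3]
    refine setIntegral_eq_of_subset_of_forall_diff_eq_zero measurableSet_Ioc
      (Ioc_subset_Ioc_right hl.le) fun x hx => ?_
    have h1 : l < x := by
      by_contra h2
      exact hx.2 ⟨hx.1.1, not_lt.1 h2⟩
    show bC f x * _ = 0
    rw [hbC x h1.le hx.1.2, zero_mul]

theorem ShX_e5 {f : ℝ → ℝ} {l kp α5 : ℝ} (h : VanA f l) (hl : l < π)
    (h5 : ∀ z : ℝ, ct l < z → -(α5 * ((1 + z * ct l) / (z - ct l))) ≤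
      kp * Real.log (z / ct l - 1)) :
    -(α5 * vs (bE f l)) ≤ kp * ∫ x in (0:ℝ)..π, bC f x * Real.log (ct x / ct l - 1) := by
  have hπ := Real.pi_pos
  obtain ⟨-, -, i1, -⟩ := UU_el h hl
  obtain ⟨i2, e2⟩ := ShX_be h hl
  rw [← e2, intervalIntegral.integral_of_le hπ.le, ← integral_const_mul, ← integral_const_mul,
    ← integral_neg]
  have i1' : IntegrableOn (fun x => bC f x * Real.log (ct x / ct l - 1)) (Ioc (0:ℝ) π) :=
    (intervalIntegrable_iff_integrableOn_Ioc_of_le hπ.le).1 i1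
  refine setIntegral_mono_on (i2.const_mul α5).neg (i1'.const_mul kp) measurableSet_Ioc
    fun x hx => ?_
  have hb0 : 0 ≤ bC f x := le_max_right _ _
  rcases le_or_gt l x with h1 | h1
  · have h3 : 0 ≤ f (-x) := by
      have h4 := h.pos (-x + 2 * π) ⟨by linarith [hx.2], by linarith⟩
      rwa [h.per (-x)] at h4
    have h5 : bC f x = 0 := max_eq_right (by linarith)
    show -(α5 * (bC f x * _)) ≤ kp * (bC f x * _)
    rw [h5]
    simp
  · have h2 := h5 (ct x) (ct_lt hx.1 h1 (by linarith))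
    have h3 := mul_le_mul_of_nonneg_left h2 hb0
    show -(α5 * (bC f x * _)) ≤ kp * (bC f x * _)
    linarith


theorem ShX_mean {f : ℝ → ℝ} : ∫ x in (0:ℝ)..(2 * π), -f x = -∫ x in (0:ℝ)..(2 * π), f x :=
  intervalIntegral.integral_neg

theorem short_asm' {k l α1 α2 α3 α4 α5 α6 α7 : ℝ} (hk : 32 ≤ k) (hl0 : 0 < l) (hl : l < π)
    (h0 : 0 ≤ α1 ∧ 0 ≤ α2 ∧ 0 ≤ α3 ∧ 0 ≤ α4 ∧ 0 ≤ α5 ∧ 0 ≤ α6 ∧ 0 ≤ α7)
    (h1 : ∀ y y' : ℝ, qk k l < y → qk k l < y' →
      -(α1 * (y' - qk k l)) - α2 ≤ gg (qk k l) y (qk k l) - kap k l * Real.log (1 + y' / ct l))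
    (h2 : ∀ y y' : ℝ, qk k l < y → 0 < y' → y' ≤ qk k l →
      -α2 ≤ gg (qk k l) y y' - kap k l * Real.log (1 + y' / ct l))
    (h3 : ∀ y t : ℝ, qk k l < y → 0 < t → t < ct l →
      -(α3 * (y - qk k l)) - α4 ≤
        (y - qk k l) * (gg (qk k l) y (-t) - kap k l * Real.log (1 - t / ct l)))
    (h5 : ∀ z : ℝ, ct l < z → -(α5 * ((1 + z * ct l) / (z - ct l))) ≤
      kap k l * Real.log (z / ct l - 1))
    (h6 : ∀ y z : ℝ, 0 < y → y < 60 * qk k l → ct l < z → 17 / 2 * chp y z ^ 3 ≤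
      α6 + α7 * (ct l * max ((y * ct l - 1) / (y + ct l)) 0 ^ 2))
    {δ : ℝ} (hδ : ∀ p q : ℝ → ℝ, Bd p → Bd q →
      FInt p q r3k ∧ 2 * form p q r3k + δ * (Su p + Su q) ≤ N3 p + N3 q)
    {f : ℝ → ℝ} (h : VanA f l) :
    δ * (Su (hat (qk k l) (bF f)) + Su (bC f)) + qk k l ^ 2 * Su1 (hat (qk k l) (bF f)) / 4
      - 2 * α1 * vs (hat (qk k l) (bF f)) ^ 2 - 2 * α2 * vs (hat (qk k l) (bF f)) * Ma f
      - 2 * α3 * vs (hat (qk k l) (bF f)) * Ma f - 2 * α4 * Ma f ^ 2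
      - 2 * α5 * vs (hat (qk k l) (bF f)) * vs (bE f l)
      - α6 * Ma f * ms (bC f) - α7 * FPt f l
      - (∫ x in (0:ℝ)..(2 * π), f x) * (vs (hat (qk k l) (bF f)) + 2 * Ma f)
      ≤ 8 * π * (TA (qk k l) (dqk k l) f l - 17 / 16 * EAk f l) := by
  obtain ⟨a1, a2, a3, a4, a5, a6, a7⟩ := h0
  obtain ⟨v1, v2, -⟩ := van_frames h
  obtain ⟨ba, bc, bb, -, -⟩ := bd_parts h
  have hπ := Real.pi_pos
  obtain ⟨K, hK⟩ := h.lip
  have hc : Continuous f := hK.continuous
  have hT : TwoA f l := h.toTwoA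
  obtain ⟨r1, r2, r3, r4, r5, -, -, -⟩ := par_rel (show 0 ≤ k by linarith) hl0 hl
  obtain ⟨m1, m2, ma0, mc0, mb0⟩ := mass_short hT hc hl
  obtain ⟨t1, t2, t3, t4⟩ := ms_hat r5 ba
  obtain ⟨u1, u2, u3, u4⟩ := UU_el h hl
  have hs1 := ShX_form (bd_hat r5 ba) r5
  have hs2 := LongA_form bb
  have hh1 := ShX_hh ba r5
  have hh2 := LongA_hh_le bb
  have he5 := ShX_e5 h hl h5
  have htl := ShX_tail hT hl r5
  obtain ⟨q, hq⟩ : ∃ q, q = qk k l := ⟨_, rfl⟩
  obtain ⟨ell, hell⟩ : ∃ ell, ell = ct l := ⟨_, rfl⟩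
  obtain ⟨kp, hkp⟩ : ∃ kp, kp = kap k l := ⟨_, rfl⟩
  have hkp0 : 0 ≤ kp := by
    rw [hkp, r3]
    exact mul_nonneg r1.le (by linarith)
  rw [← hq] at h1 h2 h3 h6 hs1 hh1 htl t1 t2 t3 t4 r5 ⊢
  rw [← hell] at h1 h2 h3 h5 h6 he5 u1 u2 u3 u4
  rw [← hkp] at h1 h2 h3 h5 he5
  obtain ⟨V, hV⟩ : ∃ V, V = vs (hat q (bF f)) := ⟨_, rfl⟩
  obtain ⟨iT1, eT1⟩ := G_kernel v1 r5
  obtain ⟨iT2, eT2⟩ := G_kernel v2 (le_refl (0:ℝ))
  obtain ⟨iC, eC⟩ := EAk_le hT h.lip
  obtain ⟨iF, -⟩ := FPt_int h hl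
  obtain ⟨iR, hR⟩ := hδ (hat q (bF f)) (bC f) (bd_hat r5 ba) bb
  obtain ⟨iS, eS⟩ := LongA_swap iT2
  obtain ⟨c1, c2⟩ := form_congr (a := hat q (bF f)) (a' := hat q (bF f)) (b := hat 0 (bC f))
    (b' := bC f) r3k (fun _ _ => rfl) (fun x hx => hat_zero ⟨hx.1, hx.2.le⟩)
  obtain ⟨d1, d2⟩ := int_hat2 r5 (le_refl (0:ℝ)) ba bb r3k
  have w0 := And.intro (d1.2 (c1.2 iR)) (d2.trans c2)
  -- one dimensional integrability
  have i1 := ShX_vq_int ba r5
  have i2 : IntegrableOn (fun x => bF f x) (Ioo (0:ℝ) π) :=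
    ba.c.integrableOn_Icc.mono_set Ioo_subset_Icc_self
  have i3 : IntegrableOn (fun x => aL f x) (Ioo (0:ℝ) π) :=
    bc.c.integrableOn_Icc.mono_set Ioo_subset_Icc_self
  have i4 : IntegrableOn (fun x => bC f x) (Ioo (0:ℝ) π) :=
    bb.c.integrableOn_Icc.mono_set Ioo_subset_Icc_self
  have i5 : IntegrableOn (fun x => bF f x * Real.log (1 + ct x / ell)) (Ioo (0:ℝ) π) :=
    (intervalIntegrable_iff_integrableOn_Ioo_of_le hπ.le).1 u1
  have i6 : IntegrableOn (fun x => aL f x * Real.log (1 - ct x / ell)) (Ioo (0:ℝ) π) :=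
    (intervalIntegrable_iff_integrableOn_Ioo_of_le hπ.le).1 u2
  have w1 := LongA_prod i1 i1
  have w2 := LongA_prod i1 i2
  have w3 := LongA_prod i1 i3
  have w4 := LongA_prod i2 i3
  have w5 := LongA_prod i2 i4
  have w6 := LongA_prod i1 i5
  have w7 := LongA_prod i1 i6
  have hms1 : MeasurableSet Sq1 := measurableSet_Ioo.prod measurableSet_Ioo
  obtain ⟨lo1, lo2⟩ := ShX_sub (ShX_sub (ShX_sub (ShX_sub (ShX_sub (ShX_sub (ShX_neg w0 2) w1 (2 * α1))
    w2 (2 * α2)) w3 (2 * α3)) w4 (2 * α4)) w5 α6) ⟨iF, rfl⟩ α7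
  obtain ⟨up1, up2⟩ := ShX_sub (ShX_sub (ShX_sub (ShX_add ⟨iT1, rfl⟩ ⟨iS, eS⟩)
    ⟨iC, rfl⟩ (17 / 2)) w6 (2 * kp)) w7 (2 * kp)
  have hI := setIntegral_mono_on lo1 up1 hms1 (fun z hz => by
    have hp := ShX_pt hT hl r5 hell ⟨a1, a2, a3, a4, a6, a7⟩ h1 h2 h3 h6 (x := z.1) (η := z.2)
      hz.1 hz.2
    rw [hell] at hp ⊢
    exact hp)
  rw [lo2, up2] at hI
  have hF : ∫ z in Sq1, bF f z.1 * bC f z.2 *
      (ct l * max ((ct z.1 * ct l - 1) / (ct z.1 + ct l)) 0 ^ 2) = FPt f l := rfl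
  rw [hF, ← t4, ← hV] at hI
  have e1 : bR (fun x => -f x) = bF f := by
    funext x
    show max (- -f x) 0 = max (f x) 0
    rw [neg_neg]
  have e2 : bR (fun x => f (-x)) = bC f := rfl
  have n1 : ∫ x in (0:ℝ)..(2 * π), -f x = -∫ x in (0:ℝ)..(2 * π), f x :=
    intervalIntegral.integral_neg
  have n2 := LongA_mean hT.per
  rw [e1] at eT1 hI
  rw [e2] at eT2 hI
  rw [n1] at eT1
  rw [n2, LongA_hat] at eT2
  have hTA := TA_eq hT.per h.lip q (dqk k l) l
  rw [← Gq_neg q f (2 * π - l), htl, ← t4, ← hV, r4, ← hkp] at hTA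
  rw [← t4, ← hV] at hh1
  rw [← hV] at t3
  have hM : (∫ x in (0:ℝ)..π, bF f x) = ms (bF f) ∧ (∫ x in (0:ℝ)..π, aL f x) = ms (aL f) ∧
      (∫ x in (0:ℝ)..π, bC f x) = ms (bC f) := ⟨rfl, rfl, rfl⟩
  rw [hM.1, hM.2.1, hM.2.2] at hI
  obtain ⟨X1, hX1⟩ : ∃ X, X = ∫ x in (0:ℝ)..π, bF f x * Real.log (1 + ct x / ell) := ⟨_, rfl⟩
  obtain ⟨X2, hX2⟩ : ∃ X, X = ∫ x in (0:ℝ)..π, aL f x * Real.log (1 - ct x / ell) := ⟨_, rfl⟩
  obtain ⟨X3, hX3⟩ : ∃ X, X = ∫ x in (0:ℝ)..π, bC f x * Real.log (ct x / ell - 1) := ⟨_, rfl⟩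
  rw [← hX1, ← hX2] at hI
  rw [← hX3] at he5
  rw [← hX1, ← hX2, ← hX3] at u4
  have hmu := h.mean
  obtain ⟨mu, hmu'⟩ : ∃ m, m = ∫ x in (0:ℝ)..(2 * π), f x := ⟨_, rfl⟩
  rw [← hmu'] at hmu m2 u4 eT1 eT2 ⊢
  have hLc : Real.log (Real.cos (l / 2)) ≤ 0 := by
    apply Real.log_nonpos
    · exact (Real.cos_pos_of_mem_Ioo ⟨by linarith, by linarith⟩).le
    · exact Real.cos_le_one _
  have hTA8 : 8 * π * TA q (dqk k l) f l = 8 * π * Gq q (fun x => -f x) (2 * π - l) +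
      8 * π * Gq 0 (fun x => f (-x)) l - 2 * kp * V * (X1 + X2 - X3 +
        Real.log (Real.cos (l / 2)) * mu) := by
    rw [← u4, r4, ← hkp, hTA]
    ring
  rw [mul_sub, hTA8, eT1, eT2, ← hV]
  -- products
  have hMaF : ms (bF f) ≤ Ma f := by linarith
  have hMaL : ms (aL f) ≤ Ma f := by linarith
  have hMaC : ms (bC f) ≤ Ma f := by linarith
  have hMa0 : 0 ≤ Ma f := by linarith
  have p1 : 2 * α2 * (V * ms (bF f)) ≤ 2 * α2 * V * Ma f := by
    have := mul_le_mul_of_nonneg_left hMaF (mul_nonneg (mul_nonneg (by norm_num : (0:ℝ) ≤ 2) a2) t3)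
    linarith
  have p2 : 2 * α3 * (V * ms (aL f)) ≤ 2 * α3 * V * Ma f := by
    have := mul_le_mul_of_nonneg_left hMaL (mul_nonneg (mul_nonneg (by norm_num : (0:ℝ) ≤ 2) a3) t3)
    linarith
  have p3 : 2 * α4 * (ms (bF f) * ms (aL f)) ≤ 2 * α4 * Ma f ^ 2 := by
    have h7 : ms (bF f) * ms (aL f) ≤ Ma f * Ma f := mul_le_mul hMaF hMaL mc0 hMa0
    have := mul_le_mul_of_nonneg_left h7 (mul_nonneg (by norm_num : (0:ℝ) ≤ 2) a4)
    linarith
  have p4 : α6 * (ms (bF f) * ms (bC f)) ≤ α6 * Ma f * ms (bC f) := by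
    have h7 : ms (bF f) * ms (bC f) ≤ Ma f * ms (bC f) := mul_le_mul_of_nonneg_right hMaF mb0
    have := mul_le_mul_of_nonneg_left h7 a6
    linarith
  have p5 : -(2 * α5 * V * vs (bE f l)) ≤ 2 * kp * V * X3 := by
    have := mul_le_mul_of_nonneg_left he5 (mul_nonneg (by norm_num : (0:ℝ) ≤ 2) t3)
    linarith
  have p6 : 0 ≤ -(2 * kp * V * (Real.log (Real.cos (l / 2)) * mu)) := by
    have h7 : 0 ≤ -Real.log (Real.cos (l / 2)) * mu := mul_nonneg (by linarith) hmu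
    have := mul_nonneg (mul_nonneg (mul_nonneg (by norm_num : (0:ℝ) ≤ 2) hkp0) t3) h7
    linarith
  have p7 := mul_le_mul_of_nonneg_left hh1 hmu
  have p8 := mul_le_mul_of_nonneg_left (hh2.trans (mul_le_mul_of_nonneg_left hMaC
    (by norm_num : (0:ℝ) ≤ 2))) hmu
  have p9 : 2 * kp * V * (X1 + X2 - X3 + Real.log (Real.cos (l / 2)) * mu) =
      2 * kp * (V * X1) + 2 * kp * (V * X2) - 2 * kp * V * X3 +
        2 * kp * V * (Real.log (Real.cos (l / 2)) * mu) := by ring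
  rw [p9]
  linarith

end Pool.Agent.H53.DA
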